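import Pool.Agent.T9h70.Corr.Sound

set_option autoImplicit false

namespace Pool.Agent.T9h70.Corr

theorem chk0 : ((edges.drop 0).take 10).all (chkEdge edges) = true := by decide +kernel

theorem chk1_ : ((edges.drop 10).take 10).all (chkEdge edges) = true := by decide +kernel

theorem chk2 : ((edges.drop 20).take 10).all (chkEdge edges) = true := by decide +kernel

theorem chk3 : ((edges.drop 30).take 10).all (chkEdge edges) = true := by decide +kernel

theorem chk4 : ((edges.drop 40).take 10).all (chkEdge edges) = true := by decide +kernel

theorem chk5 : ((edges.drop 50).take 10).all (chkEdge edges) = true := by decide +kernel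

theorem chk6 : ((edges.drop 60).take 10).all (chkEdge edges) = true := by decide +kernel

theorem chk7 : ((edges.drop 70).take 10).all (chkEdge edges) = true := by decide +kernel

theorem chk8 : ((edges.drop 80).take 10).all (chkEdge edges) = true := by decide +kernel

theorem chk9 : ((edges.drop 90).take 10).all (chkEdge edges) = true := by decide +kernel

theorem hall : ∀ i ∈ edges, chkEdge edges i = true := by
  have h : edges = (edges.drop 0).take 10 ++ ((edges.drop 10).take 10 ++ ((edges.drop 20).take 10 ++
    ((edges.drop 30).take 10 ++ ((edges.drop 40).take 10 ++ ((edges.drop 50).take 10 ++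
    ((edges.drop 60).take 10 ++ ((edges.drop 70).take 10 ++ ((edges.drop 80).take 10 ++
    (edges.drop 90).take 10)))))))) := by rfl
  intro i hi
  rw [h] at hi
  simp only [List.mem_append] at hi
  rcases hi with hi | hi | hi | hi | hi | hi | hi | hi | hi | hi
  · exact List.all_eq_true.1 chk0 i hi
  · exact List.all_eq_true.1 chk1_ i hi
  · exact List.all_eq_true.1 chk2 i hi
  · exact List.all_eq_true.1 chk3 i hi
  · exact List.all_eq_true.1 chk4 i hi
  · exact List.all_eq_true.1 chk5 i hi
  · exact List.all_eq_true.1 chk6 i hi
  · exact List.all_eq_true.1 chk7 i hi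
  · exact List.all_eq_true.1 chk8 i hi
  · exact List.all_eq_true.1 chk9 i hi

end Pool.Agent.T9h70.Corr
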