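import Mathlib

set_option autoImplicit false

namespace Pool.Agent.T9h70.Corr

noncomputable section

/-- mean of the `i`-th row. -/
def rowMean {n : ℕ} (A : Matrix (Fin n) (Fin n) ℝ) (i : Fin n) : ℝ := (∑ k, A i k) / n

/-- inner product of the centred `i`-th and `j`-th rows. -/
def rowCov {n : ℕ} (A : Matrix (Fin n) (Fin n) ℝ) (i j : Fin n) : ℝ :=
  ∑ k, (A i k - rowMean A i) * (A j k - rowMean A j)

/-- the correlation map. -/
def corrMap {n : ℕ} (A : Matrix (Fin n) (Fin n) ℝ) : Matrix (Fin n) (Fin n) ℝ :=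
  fun i j => rowCov A i j / (√(rowCov A i i) * √(rowCov A j j))

/-- correlation matrices without constant row. -/
def Cnd (n : ℕ) : Set (Matrix (Fin n) (Fin n) ℝ) :=
  {A | A.PosSemidef ∧ (∀ i, A i i = 1) ∧ ∀ i, ∃ k l, A i k ≠ A i l}

end

end Pool.Agent.T9h70.Corr
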