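import Pool.Agent.T9h70.Corr.Trap

set_option autoImplicit false

namespace Pool.Agent.T9h70.Corr

noncomputable section

open Filter Topology

/-- the repelling fixed point. -/
def p0 : ℝ × ℝ := (5 / 17, 1 / 34)

lemma F1_sq {c d : ℝ} (hc : 0 ≤ c) (hc1 : c ≤ 1 / 2) (hd : 0 ≤ d) :
    F1 c d ^ 2 * q1 c d = c ^ 2 * T c d := by
  have hT := T_pos hc hc1 hd
  have hq := q1_pos hc hc1 hd
  unfold F1
  rw [Real.sq_sqrt (by positivity)]
  field_simp

lemma F2_sq {c d : ℝ} (hc : 0 ≤ c) (hc1 : c ≤ 1 / 2) (hd : 0 ≤ d) (hd1 : d < 1) :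
    F2 c d ^ 2 * q2 c d = d ^ 2 * T c d := by
  have hT := T_pos hc hc1 hd
  have hq := q2_pos hc hc1 hd hd1
  unfold F2
  rw [Real.sq_sqrt (by positivity)]
  field_simp

lemma fix1 {z : ℝ × ℝ} (hz : z ∈ K) (h : F z = z) :
    T z.1 z.2 = 12005 * (1 - z.1 ^ 2) := by
  obtain ⟨b1, b2, b3, b4⟩ := K_bounds hz
  have h1 : F1 z.1 z.2 = z.1 := congrArg Prod.fst h
  have h2 := F1_sq (c := z.1) (d := z.2) (by linarith) (by linarith) b3
  rw [h1] at h2
  have h3 : q1 z.1 z.2 = T z.1 z.2 := mul_left_cancel₀ (by positivity) h2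
  unfold q1 at h3
  have h4 : 0 < 1 - z.1 ^ 2 := by nlinarith
  have h5 : (1 - z.1 ^ 2) * T z.1 z.2 = (1 - z.1 ^ 2) * (12005 * (1 - z.1 ^ 2)) := by
    linarith
  exact mul_left_cancel₀ h4.ne' h5

lemma fix2 {z : ℝ × ℝ} (hz : z ∈ K) (h : F z = z) (hd : 0 < z.2) :
    T z.1 z.2 = 10976 * (1 - z.2 ^ 2) := by
  obtain ⟨b1, b2, b3, b4⟩ := K_bounds hz
  have h1 : F2 z.1 z.2 = z.2 := congrArg Prod.snd h
  have h2 := F2_sq (c := z.1) (d := z.2) (by linarith) (by linarith) b3 (by linarith)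
  rw [h1] at h2
  have h3 : q2 z.1 z.2 = T z.1 z.2 := mul_left_cancel₀ (by positivity) h2
  unfold q2 at h3
  have h4 : 0 < 1 - z.2 ^ 2 := by nlinarith
  have h5 : (1 - z.2 ^ 2) * T z.1 z.2 = (1 - z.2 ^ 2) * (10976 * (1 - z.2 ^ 2)) := by
    linarith
  exact mul_left_cancel₀ h4.ne' h5

lemma fixed_unique {z : ℝ × ℝ} (hz : z ∈ K) (h : F z = z) (hd : 0 < z.2) : z = p0 := by
  have e1 := fix1 hz h
  have e2 := fix2 hz h hd
  obtain ⟨b1, b2, b3, b4⟩ := K_bounds hz
  obtain ⟨c, d⟩ := z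
  simp only at *
  have e3 : 35 * c ^ 2 = 3 + 32 * d ^ 2 := by linarith
  have e4 : (c - 5 / 17) * (c + 5 / 17) = 32 / 35 * ((d - 1 / 34) * (d + 1 / 34)) := by
    linarith
  have e5 : (d - 1 / 34) * (14320 * (d + 1 / 34) + 6688 + 2240 * c) =
      (c - 5 / 17) * (7315 - 2240 / 34) := by
    unfold T at e2
    nlinarith [e2, e3]
  have e6 : (d - 1 / 34) * ((14320 * (d + 1 / 34) + 6688 + 2240 * c) * (c + 5 / 17) -
      (7315 - 2240 / 34) * (32 / 35) * (d + 1 / 34)) = 0 := by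
    have : (d - 1 / 34) * (14320 * (d + 1 / 34) + 6688 + 2240 * c) * (c + 5 / 17) =
      (7315 - 2240 / 34) * ((c - 5 / 17) * (c + 5 / 17)) := by rw [e5]; ring
    rw [e4] at this
    linarith
  have e7 : 0 < (14320 * (d + 1 / 34) + 6688 + 2240 * c) * (c + 5 / 17) -
      (7315 - 2240 / 34) * (32 / 35) * (d + 1 / 34) := by nlinarith
  have e8 : d = 1 / 34 := by
    rcases mul_eq_zero.1 e6 with h | h
    · linarith
    · exact absurd h e7.ne'
  have e9 : c = 5 / 17 := by
    rw [e8] at e4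
    have : (c - 5 / 17) * (c + 5 / 17) = 0 := by linarith
    rcases mul_eq_zero.1 this with h | h <;> linarith
  simp [p0, e8, e9]

lemma fixed_bottom {z : ℝ × ℝ} (hz : z ∈ K) (h : F z = z) (hd : z.2 = 0) :
    10976 < T z.1 z.2 := by
  have e1 := fix1 hz h
  obtain ⟨b1, b2, b3, b4⟩ := K_bounds hz
  obtain ⟨c, d⟩ := z
  simp only at *
  subst hd
  rw [e1]
  unfold T at e1
  have e2 : 21560 * c ^ 2 - 14630 * c + 1998 = 0 := by linarith
  have e3 : c < 1 / 5 := by
    by_contra hcon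
    push Not at hcon
    nlinarith [mul_nonneg (sub_nonneg.2 hcon) (sub_nonneg.2 b2)]
  nlinarith

lemma inj_p0 {z : ℝ × ℝ} (hz : z ∈ K) (h : F z = p0) : z = p0 := by
  obtain ⟨b1, b2, b3, b4⟩ := K_bounds hz
  obtain ⟨c, d⟩ := z
  simp only at *
  have h1 : F1 c d = 5 / 17 := congrArg Prod.fst h
  have h2 : F2 c d = 1 / 34 := congrArg Prod.snd h
  have s1 := F1_sq (c := c) (d := d) (by linarith) (by linarith) b3
  have s2 := F2_sq (c := c) (d := d) (by linarith) (by linarith) b3 (by linarith)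
  rw [h1] at s1
  rw [h2] at s2
  have hT := T_pos (c := c) (d := d) (by linarith) (by linarith) b3
  have hd0 : 0 < d := by
    rcases b3.lt_or_eq with h | h
    · exact h
    · exfalso
      rw [← h] at s2
      unfold q2 at s2
      norm_num at s2
  have t1 : 264 * c ^ 2 * T c d = 300125 * (1 - c ^ 2) ^ 2 := by
    unfold q1 at s1; linarith
  have t2 : 1155 * d ^ 2 * T c d = 10976 * (1 - d ^ 2) ^ 2 := by
    unfold q2 at s2; linarith
  set W : ℝ := T c d - 12005 * 264 / 289 with hW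
  have u1 : 264 * c ^ 2 * (25 / 289) * W =
      300125 * ((5 / 17 - c) * (5 / 17 + c)) * (1 - c ^ 2 * (25 / 289)) := by
    have : 264 * c ^ 2 * (25 / 289) * W = (25 / 289) * (264 * c ^ 2 * T c d) -
      264 * c ^ 2 * (25 / 289) * (12005 * 264 / 289) := by rw [hW]; ring
    rw [this, t1]; ring
  have u2 : 1155 * d ^ 2 * (1 / 1156) * W =
      10976 * ((1 / 34 - d) * (1 / 34 + d)) * (1 - d ^ 2 * (1 / 1156)) := by
    have : 1155 * d ^ 2 * (1 / 1156) * W = (1 / 1156) * (1155 * d ^ 2 * T c d) -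
      1155 * d ^ 2 * (1 / 1156) * (12005 * 264 / 289) := by rw [hW]; ring
    rw [this, t2]; ring
  have u3 : W = (5 / 17 - c) * (14630 - 9555 * (c + 5 / 17) - 4480 * d) -
      (1 / 34 - d) * (8928 * (d + 1 / 34) + 13376 + 4480 * (5 / 17)) := by
    rw [hW]; unfold T; ring
  have hS : 14630 - 9555 * (c + 5 / 17) - 4480 * d ≤ 14630 := by nlinarith
  have hV : 0 < 8928 * (d + 1 / 34) + 13376 + 4480 * (5 / 17) := by nlinarith
  have hc2 : 0 < c ^ 2 := by positivity
  have hd2 : d ^ 2 ≤ 1 := by nlinarith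
  have hQ : 14630 * (264 * c ^ 2 * (25 / 289)) <
      300125 * (5 / 17 + c) * (1 - c ^ 2 * (25 / 289)) := by
    have a1 : c ^ 2 ≤ 471 / 1000 * c := by nlinarith
    have a2 : c ^ 2 ≤ (471 / 1000) ^ 2 := by nlinarith
    nlinarith [mul_nonneg (by linarith : (0:ℝ) ≤ 5 / 17 + c) hc2.le]
  rcases lt_trichotomy c (5 / 17) with hlt | heq | hgt
  · exfalso
    have p1 : 0 < 5 / 17 - c := by linarith
    -- W > 14630 * (c0 - c)
    have p2 : 14630 * (5 / 17 - c) < W := by
      have : 14630 * (5 / 17 - c) * (264 * c ^ 2 * (25 / 289)) <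
          W * (264 * c ^ 2 * (25 / 289)) := by
        have := mul_pos p1 (sub_pos.2 hQ)
        linarith
      exact lt_of_mul_lt_mul_right this (by positivity)
    have p3 : 0 < W := by linarith
    have p4 : 0 < 1 / 34 - d := by
      by_contra hcon
      push Not at hcon
      have : 1155 * d ^ 2 * (1 / 1156) * W > 0 := by positivity
      rw [u2] at this
      have q1' : 0 < (1 / 34 + d) := by linarith
      have q2' : 0 < (1 - d ^ 2 * (1 / 1156)) := by linarith [hd2]
      have : 10976 * ((1 / 34 - d) * (1 / 34 + d)) * (1 - d ^ 2 * (1 / 1156)) ≤ 0 := by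
        apply mul_nonpos_of_nonpos_of_nonneg _ q2'.le
        have := mul_nonneg (sub_nonneg.2 hcon) q1'.le
        linarith
      linarith
    have m1 := mul_le_mul_of_nonneg_left hS p1.le
    have m2 := mul_pos p4 hV
    linarith
  · have hW0 : W = 0 := by
      rw [heq] at u1
      have : 264 * (5 / 17 : ℝ) ^ 2 * (25 / 289) * W = 0 := by rw [u1]; ring
      nlinarith
    rw [heq, hW0] at u3
    have : (1 / 34 - d) * (8928 * (d + 1 / 34) + 13376 + 4480 * (5 / 17)) = 0 := by linarith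
    rcases mul_eq_zero.1 this with h | h
    · have : d = 1 / 34 := by linarith
      simp [p0, heq, this]
    · exact absurd h hV.ne'
  · exfalso
    have p1 : 0 < c - 5 / 17 := by linarith
    have p2 : W < -(14630 * (c - 5 / 17)) := by
      have : W * (264 * c ^ 2 * (25 / 289)) <
          -(14630 * (c - 5 / 17)) * (264 * c ^ 2 * (25 / 289)) := by
        have := mul_pos p1 (sub_pos.2 hQ)
        linarith
      exact lt_of_mul_lt_mul_right this (by positivity)
    have p3 : W < 0 := by linarith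
    have p4 : 0 < d - 1 / 34 := by
      by_contra hcon
      push Not at hcon
      have : 1155 * d ^ 2 * (1 / 1156) * W < 0 := mul_neg_of_pos_of_neg (by positivity) p3
      rw [u2] at this
      have q1' : 0 < (1 / 34 + d) := by linarith
      have q2' : 0 < (1 - d ^ 2 * (1 / 1156)) := by linarith [hd2]
      have : 0 ≤ 10976 * ((1 / 34 - d) * (1 / 34 + d)) * (1 - d ^ 2 * (1 / 1156)) := by
        apply mul_nonneg _ q2'.le
        have := mul_nonneg (sub_nonneg.2 hcon) q1'.le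
        linarith
      linarith
    have m1 := mul_le_mul_of_nonneg_left hS p1.le
    have m2 := mul_pos p4 hV
    linarith

end

end Pool.Agent.T9h70.Corr
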