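import Pool.Agent.T9h70.Corr.Planar
import Pool.Agent.T9h70.Corr.Defs

set_option autoImplicit false

namespace Pool.Agent.T9h70.Corr

noncomputable section

open Filter Topology Matrix

/-- block labels. -/
def lab (m : ℕ) (i : Fin (343 * m)) : Fin 5 :=
  if i.val < 209 * m then 0 else if i.val < 244 * m then 1 else if i.val < 279 * m then 2 else
    if i.val < 311 * m then 3 else 4

lemma sum_lab (m : ℕ) (g : Fin 5 → ℝ) :
    ∑ i : Fin (343 * m), g (lab m i) =
      m * (209 * g 0 + 35 * g 1 + 35 * g 2 + 32 * g 3 + 32 * g 4) := by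
  have h1 : ∑ i : Fin (343 * m), g (lab m i) = ∑ i ∈ Finset.range (343 * m),
      g (if i < 209 * m then 0 else if i < 244 * m then 1 else if i < 279 * m then 2 else
    if i < 311 * m then 3 else 4) := by
    rw [← Fin.sum_univ_eq_sum_range]
    rfl
  rw [h1, Finset.range_eq_Ico,
    ← Finset.sum_Ico_consecutive _ (Nat.zero_le (209 * m)) (by omega),
    ← Finset.sum_Ico_consecutive _ (show 209 * m ≤ 244 * m by omega) (by omega),
    ← Finset.sum_Ico_consecutive _ (show 244 * m ≤ 279 * m by omega) (by omega),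
    ← Finset.sum_Ico_consecutive _ (show 279 * m ≤ 311 * m by omega) (by omega)]
  have a0 : ∀ i ∈ Finset.Ico 0 (209 * m), g (if i < 209 * m then 0 else if i < 244 * m then 1
      else if i < 279 * m then 2 else if i < 311 * m then 3 else 4) = g 0 := by
    intro i hi
    rw [Finset.mem_Ico] at hi
    rw [if_pos hi.2]
  have a1 : ∀ i ∈ Finset.Ico (209 * m) (244 * m), g (if i < 209 * m then 0 else
      if i < 244 * m then 1 else if i < 279 * m then 2 else if i < 311 * m then 3 else 4)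
      = g 1 := by
    intro i hi
    rw [Finset.mem_Ico] at hi
    rw [if_neg (by omega), if_pos hi.2]
  have a2 : ∀ i ∈ Finset.Ico (244 * m) (279 * m), g (if i < 209 * m then 0 else
      if i < 244 * m then 1 else if i < 279 * m then 2 else if i < 311 * m then 3 else 4)
      = g 2 := by
    intro i hi
    rw [Finset.mem_Ico] at hi
    rw [if_neg (by omega), if_neg (by omega), if_pos hi.2]
  have a3 : ∀ i ∈ Finset.Ico (279 * m) (311 * m), g (if i < 209 * m then 0 else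
      if i < 244 * m then 1 else if i < 279 * m then 2 else if i < 311 * m then 3 else 4)
      = g 3 := by
    intro i hi
    rw [Finset.mem_Ico] at hi
    rw [if_neg (by omega), if_neg (by omega), if_neg (by omega), if_pos hi.2]
  have a4 : ∀ i ∈ Finset.Ico (311 * m) (343 * m), g (if i < 209 * m then 0 else
      if i < 244 * m then 1 else if i < 279 * m then 2 else if i < 311 * m then 3 else 4)
      = g 4 := by
    intro i hi
    rw [Finset.mem_Ico] at hi
    rw [if_neg (by omega), if_neg (by omega), if_neg (by omega), if_neg (by omega)]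
  rw [Finset.sum_congr rfl a0, Finset.sum_congr rfl a1, Finset.sum_congr rfl a2,
    Finset.sum_congr rfl a3, Finset.sum_congr rfl a4]
  simp only [Finset.sum_const, Nat.card_Ico, nsmul_eq_mul]
  rw [show 209 * m - 0 = 209 * m by omega, show 244 * m - 209 * m = 35 * m by omega,
    show 279 * m - 244 * m = 35 * m by omega, show 311 * m - 279 * m = 32 * m by omega,
    show 343 * m - 311 * m = 32 * m by omega]
  push_cast
  ring

/-- first coordinates of the five unit vectors. -/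
def va (c : ℝ) : Fin 5 → ℝ := ![0, √(1 - c ^ 2), -√(1 - c ^ 2), 0, 0]
/-- second coordinates of the five unit vectors. -/
def vb (d : ℝ) : Fin 5 → ℝ := ![0, 0, 0, √(1 - d ^ 2), -√(1 - d ^ 2)]
/-- third coordinates of the five unit vectors. -/
def vg (c d : ℝ) : Fin 5 → ℝ := ![1, c, c, -d, -d]

/-- Gram matrix entries between labels. -/
def gr (c d : ℝ) (a b : Fin 5) : ℝ := va c a * va c b + vb d a * vb d b + vg c d a * vg c d b

/-- the two-parameter family of correlation matrices. -/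
def Am (m : ℕ) (z : ℝ × ℝ) : Matrix (Fin (343 * m)) (Fin (343 * m)) ℝ :=
  fun i j => gr z.1 z.2 (lab m i) (lab m j)

/-- weighted inner products of the five vectors. -/
def gw (c d : ℝ) (a b : Fin 5) : ℝ :=
  12005 * (1 - c ^ 2) * (va c a * va c b) + 10976 * (1 - d ^ 2) * (vb d a * vb d b)
    + T c d * (vg c d a * vg c d b)

lemma rowMean_Am {m : ℕ} (hm : 0 < m) (z : ℝ × ℝ) (i : Fin (343 * m)) :
    rowMean (Am m z) i = vg z.1 z.2 (lab m i) * ((209 + 70 * z.1 - 64 * z.2) / 343) := by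
  unfold rowMean Am
  rw [sum_lab m (fun b => gr z.1 z.2 (lab m i) b)]
  have hm' : (0 : ℝ) < m := by exact_mod_cast hm
  simp only [gr, va, vb, vg]
  simp
  field_simp
  ring

lemma rowCov_Am {m : ℕ} (hm : 0 < m) {z : ℝ × ℝ} (h1 : z.1 ^ 2 ≤ 1) (h2 : z.2 ^ 2 ≤ 1)
    (i j : Fin (343 * m)) :
    rowCov (Am m z) i j = (2 * m / 343) * gw z.1 z.2 (lab m i) (lab m j) := by
  unfold rowCov
  simp only [rowMean_Am hm]
  unfold Am
  rw [sum_lab m (fun b => (gr z.1 z.2 (lab m i) b - vg z.1 z.2 (lab m i) *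
    ((209 + 70 * z.1 - 64 * z.2) / 343)) * (gr z.1 z.2 (lab m j) b - vg z.1 z.2 (lab m j) *
    ((209 + 70 * z.1 - 64 * z.2) / 343)))]
  have s1 : √(1 - z.1 ^ 2) ^ 2 = 1 - z.1 ^ 2 := Real.sq_sqrt (by linarith)
  have s2 : √(1 - z.2 ^ 2) ^ 2 = 1 - z.2 ^ 2 := Real.sq_sqrt (by linarith)
  generalize lab m i = a
  generalize lab m j = b
  unfold gr gw
  generalize hA : va z.1 a = x1
  generalize hB : vb z.2 a = x2
  generalize hC : vg z.1 z.2 a = x3
  generalize hA' : va z.1 b = y1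
  generalize hB' : vb z.2 b = y2
  generalize hC' : vg z.1 z.2 b = y3
  simp only [va, vb, vg, T]
  simp
  linear_combination 70 * m * x1 * y1 * s1 + 64 * m * x2 * y2 * s2

lemma lab_cases (a : Fin 5) : a = 0 ∨ a = 1 ∨ a = 2 ∨ a = 3 ∨ a = 4 := by
  fin_cases a <;> simp

/-- denominators. -/
def dn (c d : ℝ) : Fin 5 → ℝ := ![T c d, q1 c d, q1 c d, q2 c d, q2 c d]

lemma gw_self {c d : ℝ} (h1 : c ^ 2 ≤ 1) (h2 : d ^ 2 ≤ 1) (a : Fin 5) :
    gw c d a a = dn c d a := by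
  have s1 : √(1 - c ^ 2) ^ 2 = 1 - c ^ 2 := Real.sq_sqrt (by linarith)
  have s2 : √(1 - d ^ 2) ^ 2 = 1 - d ^ 2 := Real.sq_sqrt (by linarith)
  rcases lab_cases a with rfl | rfl | rfl | rfl | rfl
  · simp [gw, dn, va, vb, vg]
  · simp [gw, dn, va, vb, vg, q1]
    linear_combination 12005 * (1 - c ^ 2) * s1
  · simp [gw, dn, va, vb, vg, q1]
    linear_combination 12005 * (1 - c ^ 2) * s1
  · simp [gw, dn, va, vb, vg, q2]
    linear_combination 10976 * (1 - d ^ 2) * s2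
  · simp [gw, dn, va, vb, vg, q2]
    linear_combination 10976 * (1 - d ^ 2) * s2

lemma one_sub_F1 {c d : ℝ} (hc : 0 ≤ c) (hc1 : c ≤ 1 / 2) (hd : 0 ≤ d) :
    √(1 - F1 c d ^ 2) = √12005 * (1 - c ^ 2) / √(q1 c d) := by
  have hq := q1_pos hc hc1 hd
  have hT := T_pos hc hc1 hd
  have h := F1_sq hc hc1 hd
  have hs : 0 ≤ 1 - c ^ 2 := by nlinarith
  have h1 : 1 - F1 c d ^ 2 = 12005 * (1 - c ^ 2) ^ 2 / q1 c d := by
    have : F1 c d ^ 2 = c ^ 2 * T c d / q1 c d := by field_simp; linarith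
    rw [this]
    field_simp
    unfold q1
    ring
  rw [h1, Real.sqrt_div' _ hq.le, Real.sqrt_mul (by norm_num), Real.sqrt_sq hs]

lemma one_sub_F2 {c d : ℝ} (hc : 0 ≤ c) (hc1 : c ≤ 1 / 2) (hd : 0 ≤ d) (hd1 : d < 1) :
    √(1 - F2 c d ^ 2) = √10976 * (1 - d ^ 2) / √(q2 c d) := by
  have hq := q2_pos hc hc1 hd hd1
  have hT := T_pos hc hc1 hd
  have h := F2_sq hc hc1 hd hd1
  have hs : 0 ≤ 1 - d ^ 2 := by nlinarith
  have h1 : 1 - F2 c d ^ 2 = 10976 * (1 - d ^ 2) ^ 2 / q2 c d := by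
    have : F2 c d ^ 2 = d ^ 2 * T c d / q2 c d := by field_simp; linarith
    rw [this]
    field_simp
    unfold q2
    ring
  rw [h1, Real.sqrt_div' _ hq.le, Real.sqrt_mul (by norm_num), Real.sqrt_sq hs]

lemma F1_div {c d : ℝ} (hc : 0 ≤ c) (hc1 : c ≤ 1 / 2) (hd : 0 ≤ d) :
    F1 c d = √(T c d) * c / √(q1 c d) := by
  have hq := q1_pos hc hc1 hd
  rw [F1_eq hc, Real.sqrt_div' _ hq.le]
  ring

lemma F2_div {c d : ℝ} (hc : 0 ≤ c) (hc1 : c ≤ 1 / 2) (hd : 0 ≤ d) (hd1 : d < 1) :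
    F2 c d = √(T c d) * d / √(q2 c d) := by
  have hq := q2_pos hc hc1 hd hd1
  rw [F2_eq hd, Real.sqrt_div' _ hq.le]
  ring

lemma gr_F {c d : ℝ} (hc : 0 ≤ c) (hc1 : c ≤ 1 / 2) (hd : 0 ≤ d) (hd1 : d < 1) (a b : Fin 5) :
    gr (F1 c d) (F2 c d) a b = gw c d a b / (√(dn c d a) * √(dn c d b)) := by
  have hT := T_pos hc hc1 hd
  have hT' : 0 < T c d := by linarith
  have hq1 := q1_pos hc hc1 hd
  have hq2 := q2_pos hc hc1 hd hd1
  have c1 : 0 ≤ 1 - c ^ 2 := by nlinarith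
  have c2 : 0 ≤ 1 - d ^ 2 := by nlinarith
  have s1 : √(1 - c ^ 2) ^ 2 = 1 - c ^ 2 := Real.sq_sqrt c1
  have s2 : √(1 - d ^ 2) ^ 2 = 1 - d ^ 2 := Real.sq_sqrt c2
  have hTs : √(T c d) ^ 2 = T c d := Real.sq_sqrt hT'.le
  have r1 : (√12005 : ℝ) ^ 2 = 12005 := Real.sq_sqrt (by norm_num)
  have r2 : (√10976 : ℝ) ^ 2 = 10976 := Real.sq_sqrt (by norm_num)
  have hTp := Real.sqrt_pos.2 hT'
  have hqp1 := Real.sqrt_pos.2 hq1
  have hqp2 := Real.sqrt_pos.2 hq2
  have ea : ∀ a, va (F1 c d) a = √12005 * √(1 - c ^ 2) * va c a / √(dn c d a) := by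
    intro a
    rcases lab_cases a with rfl | rfl | rfl | rfl | rfl
    · simp [va]
    · simp only [va, dn, Matrix.cons_val_one, Matrix.cons_val_zero, one_sub_F1 hc hc1 hd]
      rw [mul_assoc, ← sq, s1]
    · simp [va, dn, one_sub_F1 hc hc1 hd]
      rw [mul_assoc, ← sq, s1]
      ring
    · simp [va]
    · simp [va]
  have eb : ∀ a, vb (F2 c d) a = √10976 * √(1 - d ^ 2) * vb d a / √(dn c d a) := by
    intro a
    rcases lab_cases a with rfl | rfl | rfl | rfl | rfl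
    · simp [vb]
    · simp [vb]
    · simp [vb]
    · simp [vb, dn, one_sub_F2 hc hc1 hd hd1]
      rw [mul_assoc, ← sq, s2]
    · simp [vb, dn, one_sub_F2 hc hc1 hd hd1]
      rw [mul_assoc, ← sq, s2]
      ring
  have eg : ∀ a, vg (F1 c d) (F2 c d) a = √(T c d) * vg c d a / √(dn c d a) := by
    intro a
    rcases lab_cases a with rfl | rfl | rfl | rfl | rfl
    · simp [vg, dn, hTp.ne']
    · simp [vg, dn, F1_div hc hc1 hd]
    · simp [vg, dn, F1_div hc hc1 hd]
    · simp [vg, dn, F2_div hc hc1 hd hd1]; ring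
    · simp [vg, dn, F2_div hc hc1 hd hd1]; ring
  have hpos : ∀ a, 0 < √(dn c d a) := by
    intro a
    rcases lab_cases a with rfl | rfl | rfl | rfl | rfl <;> simp [dn, hT', hq1, hq2]
  unfold gr gw
  rw [ea a, ea b, eb a, eb b, eg a, eg b]
  have ha := (hpos a).ne'
  have hb := (hpos b).ne'
  field_simp
  linear_combination (va c a * va c b * √(1 - c ^ 2) ^ 2) * r1 +
    (va c a * va c b * 12005) * s1 + (vb d a * vb d b * √(1 - d ^ 2) ^ 2) * r2 +
    (vb d a * vb d b * 10976) * s2 + (vg c d a * vg c d b) * hTs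

lemma corr_Am {m : ℕ} (hm : 0 < m) {z : ℝ × ℝ} (hz : z ∈ K) :
    corrMap (Am m z) = Am m (F z) := by
  obtain ⟨b1, b2, b3, b4⟩ := K_bounds hz
  have h1 : z.1 ^ 2 ≤ 1 := by nlinarith
  have h2 : z.2 ^ 2 ≤ 1 := by nlinarith
  have hm' : (0 : ℝ) < 2 * m / 343 := by
    have : (0 : ℝ) < m := by exact_mod_cast hm
    positivity
  ext i j
  unfold corrMap
  rw [rowCov_Am hm h1 h2, rowCov_Am hm h1 h2, rowCov_Am hm h1 h2, gw_self h1 h2, gw_self h1 h2]
  unfold Am F
  simp only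
  rw [gr_F (c := z.1) (d := z.2) (by linarith) (by linarith) b3 (by linarith)]
  rw [Real.sqrt_mul hm'.le, Real.sqrt_mul hm'.le]
  have h3 : √(2 * (m : ℝ) / 343) * √(2 * (m : ℝ) / 343) = 2 * m / 343 :=
    Real.mul_self_sqrt hm'.le
  rw [show √(2 * (m : ℝ) / 343) * √(dn z.1 z.2 (lab m i)) *
    (√(2 * (m : ℝ) / 343) * √(dn z.1 z.2 (lab m j))) =
    (√(2 * (m : ℝ) / 343) * √(2 * (m : ℝ) / 343)) *
    (√(dn z.1 z.2 (lab m i)) * √(dn z.1 z.2 (lab m j))) by ring, h3]
  rw [mul_div_mul_left _ _ hm'.ne']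

lemma gr_self {c d : ℝ} (h1 : c ^ 2 ≤ 1) (h2 : d ^ 2 ≤ 1) (a : Fin 5) : gr c d a a = 1 := by
  have s1 : √(1 - c ^ 2) ^ 2 = 1 - c ^ 2 := Real.sq_sqrt (by linarith)
  have s2 : √(1 - d ^ 2) ^ 2 = 1 - d ^ 2 := Real.sq_sqrt (by linarith)
  rcases lab_cases a with rfl | rfl | rfl | rfl | rfl
  · simp [gr, va, vb, vg]
  · simp [gr, va, vb, vg]; linarith
  · simp [gr, va, vb, vg]; linarith
  · simp [gr, va, vb, vg]; linarith
  · simp [gr, va, vb, vg]; linarith

lemma posSemidef_Am (m : ℕ) (z : ℝ × ℝ) : (Am m z).PosSemidef := by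
  have h : Am m z = (Matrix.of fun (i : Fin (343 * m)) (r : Fin 3) =>
      (![va z.1 (lab m i), vb z.2 (lab m i), vg z.1 z.2 (lab m i)] : Fin 3 → ℝ) r) *
      (Matrix.of fun (i : Fin (343 * m)) (r : Fin 3) =>
      (![va z.1 (lab m i), vb z.2 (lab m i), vg z.1 z.2 (lab m i)] : Fin 3 → ℝ) r)ᴴ := by
    ext i j
    simp [Am, gr, Matrix.mul_apply, Fin.sum_univ_three]
  rw [h]
  exact Matrix.posSemidef_self_mul_conjTranspose _

/-- an index with label `0`. -/
def i0 {m : ℕ} (hm : 0 < m) : Fin (343 * m) := ⟨0, by omega⟩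
/-- an index with label `1`. -/
def i1 {m : ℕ} (hm : 0 < m) : Fin (343 * m) := ⟨209 * m, by omega⟩
/-- an index with label `3`. -/
def i3 {m : ℕ} (hm : 0 < m) : Fin (343 * m) := ⟨279 * m, by omega⟩

lemma lab_i0 {m : ℕ} (hm : 0 < m) : lab m (i0 hm) = 0 := by
  unfold lab i0
  simp only
  rw [if_pos (by omega)]

lemma lab_i1 {m : ℕ} (hm : 0 < m) : lab m (i1 hm) = 1 := by
  unfold lab i1
  simp only
  rw [if_neg (by omega), if_pos (by omega)]

lemma lab_i3 {m : ℕ} (hm : 0 < m) : lab m (i3 hm) = 3 := by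
  unfold lab i3
  simp only
  rw [if_neg (by omega), if_neg (by omega), if_neg (by omega), if_pos (by omega)]

lemma Am_01 {m : ℕ} (hm : 0 < m) (z : ℝ × ℝ) : Am m z (i0 hm) (i1 hm) = z.1 := by
  unfold Am
  rw [lab_i0, lab_i1]
  simp [gr, va, vb, vg]

lemma Am_03 {m : ℕ} (hm : 0 < m) (z : ℝ × ℝ) : Am m z (i0 hm) (i3 hm) = -z.2 := by
  unfold Am
  rw [lab_i0, lab_i3]
  simp [gr, va, vb, vg]

lemma Am_mem {m : ℕ} (hm : 0 < m) {z : ℝ × ℝ} (hz : z ∈ K) : Am m z ∈ Cnd (343 * m) := by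
  obtain ⟨b1, b2, b3, b4⟩ := K_bounds hz
  have h1 : z.1 ^ 2 ≤ 1 := by nlinarith
  have h2 : z.2 ^ 2 ≤ 1 := by nlinarith
  refine ⟨posSemidef_Am m z, fun i => gr_self h1 h2 _, fun i => ?_⟩
  rcases lab_cases (lab m i) with h | h | h | h | h
  · refine ⟨i, i1 hm, ?_⟩
    have e1 : Am m z i i = 1 := gr_self h1 h2 _
    have e2 : Am m z i (i1 hm) = z.1 := by
      unfold Am; rw [h, lab_i1]; simp [gr, va, vb, vg]
    rw [e1, e2]
    intro hcon; linarith
  · refine ⟨i, i0 hm, ?_⟩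
    have e1 : Am m z i i = 1 := gr_self h1 h2 _
    have e2 : Am m z i (i0 hm) = z.1 := by
      unfold Am; rw [h, lab_i0]; simp [gr, va, vb, vg]
    rw [e1, e2]
    intro hcon; linarith
  · refine ⟨i, i0 hm, ?_⟩
    have e1 : Am m z i i = 1 := gr_self h1 h2 _
    have e2 : Am m z i (i0 hm) = z.1 := by
      unfold Am; rw [h, lab_i0]; simp [gr, va, vb, vg]
    rw [e1, e2]
    intro hcon; linarith
  · refine ⟨i, i0 hm, ?_⟩
    have e1 : Am m z i i = 1 := gr_self h1 h2 _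
    have e2 : Am m z i (i0 hm) = -z.2 := by
      unfold Am; rw [h, lab_i0]; simp [gr, va, vb, vg]
    rw [e1, e2]
    intro hcon; linarith
  · refine ⟨i, i0 hm, ?_⟩
    have e1 : Am m z i i = 1 := gr_self h1 h2 _
    have e2 : Am m z i (i0 hm) = -z.2 := by
      unfold Am; rw [h, lab_i0]; simp [gr, va, vb, vg]
    rw [e1, e2]
    intro hcon; linarith

lemma iter_K {z : ℝ × ℝ} (hz : z ∈ K) (k : ℕ) : F^[k] z ∈ K := by
  induction k with
  | zero => exact hz
  | succ k ih => rw [Function.iterate_succ_apply']; exact invariant hall ih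

lemma iter_Am {m : ℕ} (hm : 0 < m) {z : ℝ × ℝ} (hz : z ∈ K) (k : ℕ) :
    corrMap^[k] (Am m z) = Am m (F^[k] z) := by
  induction k with
  | zero => rfl
  | succ k ih =>
    rw [Function.iterate_succ_apply', Function.iterate_succ_apply', ih, corr_Am hm (iter_K hz k)]

lemma not_conv {m : ℕ} (hm : 0 < m) {z : ℝ × ℝ} (hz : z ∈ K) (hd : 0 < z.2) (hne : z ≠ p0) :
    ¬ ∃ L, Tendsto (fun k => corrMap^[k] (Am m z)) atTop (𝓝 L) := by
  rintro ⟨L, hL⟩
  have h1 : Tendsto (fun k => F^[k] z) atTop (𝓝 (L (i0 hm) (i1 hm), -L (i0 hm) (i3 hm))) := by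
    apply Tendsto.prodMk_nhds
    · have := ((continuous_apply_apply (i0 hm) (i1 hm)).tendsto L).comp hL
      refine this.congr fun k => ?_
      simp only [iter_Am hm hz]
      exact Am_01 hm _
    · have := (((continuous_apply_apply (i0 hm) (i3 hm)).tendsto L).comp hL).neg
      refine this.congr fun k => ?_
      simp only [iter_Am hm hz]
      change -(Am m (F^[k] z) (i0 hm) (i3 hm)) = _
      rw [Am_03 hm]; simp
  exact planar_not_conv hz hd hne _ h1

lemma continuous_Am (m : ℕ) : Continuous (Am m) := by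
  apply continuous_matrix
  intro i j
  unfold Am gr
  have hva : ∀ a, Continuous (fun z : ℝ × ℝ => va z.1 a) := by
    intro a
    rcases lab_cases a with rfl | rfl | rfl | rfl | rfl <;> simp [va] <;> fun_prop
  have hvb : ∀ a, Continuous (fun z : ℝ × ℝ => vb z.2 a) := by
    intro a
    rcases lab_cases a with rfl | rfl | rfl | rfl | rfl <;> simp [vb] <;> fun_prop
  have hvg : ∀ a, Continuous (fun z : ℝ × ℝ => vg z.1 z.2 a) := by
    intro a
    rcases lab_cases a with rfl | rfl | rfl | rfl | rfl <;> simp [vg] <;> fun_prop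
  exact (((hva _).mul (hva _)).add ((hvb _).mul (hvb _))).add ((hvg _).mul (hvg _))

lemma nontrivial_omega {m : ℕ} (hm : 0 < m) {z : ℝ × ℝ} (hz : z ∈ K) (hd : 0 < z.2)
    (hne : z ≠ p0) :
    {L | MapClusterPt L atTop (fun k => corrMap^[k] (Am m z))}.Nontrivial := by
  by_contra hcon
  rw [Set.not_nontrivial_iff] at hcon
  have hC : IsCompact (Am m '' K) := isCompact_K.image (continuous_Am m)
  have hmem : ∀ k, corrMap^[k] (Am m z) ∈ Am m '' K := fun k =>
    ⟨F^[k] z, iter_K hz k, (iter_Am hm hz k).symm⟩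
  obtain ⟨L, hL, hLc⟩ := hC.exists_mapClusterPt (f := atTop)
    (u := fun k => corrMap^[k] (Am m z)) (tendsto_principal.2 (Eventually.of_forall hmem))
  apply not_conv hm hz hd hne
  refine ⟨L, hC.tendsto_nhds_of_unique_mapClusterPt (Eventually.of_forall hmem) ?_⟩
  intro L' _ hL'
  exact hcon hL' hLc

theorem mem_left : ∀ j ∈ edges, 0 ≤ icon j 250000 20000 := by
  decide +kernel

theorem mem_right : ∀ j ∈ edges, 0 ≤ icon j 300000 20000 := by
  decide +kernel

lemma seg_mem {s : ℝ} (h0 : 0 ≤ s) (h1 : s ≤ 1) : ((1 / 4 + s / 20, 1 / 50) : ℝ × ℝ) ∈ K := by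
  refine ⟨by norm_num, fun j hj => ?_⟩
  have e1 : (0 : ℝ) ≤ (icon j 250000 20000 : ℝ) := by exact_mod_cast mem_left j hj
  have e2 : (0 : ℝ) ≤ (icon j 300000 20000 : ℝ) := by exact_mod_cast mem_right j hj
  have : con j (1 / 4 + s / 20, 1 / 50) =
      (1 - s) * (icon j 250000 20000 : ℝ) + s * (icon j 300000 20000 : ℝ) := by
    unfold con icon Mr
    push_cast
    ring
  rw [this]
  have := sub_nonneg.2 h1
  positivity


end

end Pool.Agent.T9h70.Corr
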