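import Pool.Agent.T9h70.Corr.Repel
import Pool.Agent.T9h70.Corr.Checks

set_option autoImplicit false

namespace Pool.Agent.T9h70.Corr

noncomputable section

open Filter Topology

/-- quadratic form adapted to the derivative of the map at the repelling fixed point. -/
def En (w : ℝ × ℝ) : ℝ :=
  55 / 4624 * w.1 ^ 2 - 88 / 2023 * w.1 * w.2 + 2640 / 14161 * w.2 ^ 2

lemma En_lower' (w : ℝ × ℝ) : 9 / 1000 * (w.1 ^ 2 + w.2 ^ 2) ≤ En w := by
  unfold En
  nlinarith [sq_nonneg (w.1 - 7 * w.2), sq_nonneg (w.1 - 8 * w.2), sq_nonneg w.2, sq_nonneg w.1]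

lemma En_lower (w : ℝ × ℝ) : 9 / 1000 * ‖w‖ ^ 2 ≤ En w := by
  have h := En_lower' w
  have h2 : ‖w‖ ^ 2 ≤ w.1 ^ 2 + w.2 ^ 2 := by
    rw [Prod.norm_def]
    rcases max_cases ‖w.1‖ ‖w.2‖ with ⟨h, _⟩ | ⟨h, _⟩
    · rw [h, Real.norm_eq_abs, sq_abs]; nlinarith [sq_nonneg w.2]
    · rw [h, Real.norm_eq_abs, sq_abs]; nlinarith [sq_nonneg w.1]
  linarith

lemma En_pos {w : ℝ × ℝ} (hw : w ≠ 0) : 0 < En w := by
  have h := En_lower w
  have : 0 < ‖w‖ := norm_pos_iff.2 hw
  have : 0 < 9 / 1000 * ‖w‖ ^ 2 := by positivity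
  linarith

lemma F_p0 : F p0 = p0 := by
  have h1 : F1 p0.1 p0.2 = 5 / 17 := by
    unfold F1
    rw [T_p0, q1_p0, Real.sqrt_eq_iff_mul_self_eq] <;> norm_num [p0]
  have h2 : F2 p0.1 p0.2 = 1 / 34 := by
    unfold F2
    rw [T_p0, q2_p0, Real.sqrt_eq_iff_mul_self_eq] <;> norm_num [p0]
  unfold F
  rw [h1, h2]
  rfl

lemma local_exp : ∀ᶠ z in 𝓝 p0, En (z - p0) ≤ En (F z - p0) := by
  have e1 := (hasF1.isLittleO.def (show (0 : ℝ) < 6 / 1000000 by norm_num))
  have e2 := (hasF2.isLittleO.def (show (0 : ℝ) < 6 / 1000000 by norm_num))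
  have hF1 : F1 p0.1 p0.2 = 5 / 17 := congrArg Prod.fst F_p0
  have hF2 : F2 p0.1 p0.2 = 1 / 34 := congrArg Prod.snd F_p0
  filter_upwards [e1, e2] with z h1 h2
  set w : ℝ × ℝ := z - p0 with hw
  simp only [hF1, hF2, add_apply, smul_apply, smul_eq_mul, Real.norm_eq_abs] at h1 h2
  rw [show X1 w = w.1 from rfl, show X2 w = w.2 from rfl] at h1 h2
  set n := ‖w‖ with hn
  have hn0 : 0 ≤ n := norm_nonneg _
  have w1 : |w.1| ≤ n := by
    rw [hn, Prod.norm_def]; exact le_max_left _ _
  have w2 : |w.2| ≤ n := by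
    rw [hn, Prod.norm_def]; exact le_max_right _ _
  obtain ⟨r1, hr1⟩ : ∃ r, r = F1 z.1 z.2 - 5 / 17 - (1978 / 2023 * w.1 + 2640 / 14161 * w.2) :=
    ⟨_, rfl⟩
  obtain ⟨r2, hr2⟩ : ∃ r, r = F2 z.1 z.2 - 1 / 34 - (-55 / 4624 * w.1 + 2066 / 2023 * w.2) :=
    ⟨_, rfl⟩
  rw [← hr1] at h1
  rw [← hr2] at h2
  have f1 : (F z - p0).1 = (1978 / 2023 * w.1 + 2640 / 14161 * w.2) + r1 := by
    rw [hr1]; simp [F, p0]
  have f2 : (F z - p0).2 = (-55 / 4624 * w.1 + 2066 / 2023 * w.2) + r2 := by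
    rw [hr2]; simp [F, p0]
  have hE := En_lower w
  rw [abs_le] at w1 w2
  set u1 := 1978 / 2023 * w.1 + 2640 / 14161 * w.2 with hu1
  set u2 := -55 / 4624 * w.1 + 2066 / 2023 * w.2 with hu2
  have b1 : |u1| ≤ 12 / 10 * n := by rw [abs_le]; constructor <;> linarith [w1.1, w1.2, w2.1, w2.2]
  have b2 : |u2| ≤ 104 / 100 * n := by
    rw [abs_le]; constructor <;> linarith [w1.1, w1.2, w2.1, w2.2]
  have c11 : |u1 * r1| ≤ 12 / 10 * n * (6 / 1000000 * n) := by
    rw [abs_mul]; gcongr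
  have c12 : |u1 * r2| ≤ 12 / 10 * n * (6 / 1000000 * n) := by
    rw [abs_mul]; gcongr
  have c21 : |u2 * r1| ≤ 104 / 100 * n * (6 / 1000000 * n) := by
    rw [abs_mul]; gcongr
  have c22 : |u2 * r2| ≤ 104 / 100 * n * (6 / 1000000 * n) := by
    rw [abs_mul]; gcongr
  rw [abs_le] at c11 c12 c21 c22
  have hr := En_lower' (r1, r2)
  have hr0 : 0 ≤ En (r1, r2) := by
    have : 0 ≤ 9 / 1000 * ((r1, r2).1 ^ 2 + (r1, r2).2 ^ 2) := by positivity
    linarith
  have hdet : En (u1, u2) = 16382492 / 16370116 * En w := by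
    rw [hu1, hu2]; unfold En; ring
  have hsum : En (F z - p0) = En (u1, u2) + En (r1, r2) +
      (2 * (55 / 4624) * (u1 * r1) - 88 / 2023 * (u1 * r2) - 88 / 2023 * (u2 * r1)
        + 2 * (2640 / 14161) * (u2 * r2)) := by
    unfold En; rw [f1, f2]; ring
  rw [hsum, hdet]
  nlinarith [c11.1, c11.2, c12.1, c12.2, c21.1, c21.2, c22.1, c22.2, sq_nonneg n]

lemma not_tendsto_zero {e : ℕ → ℝ} (hpos : ∀ k, 0 < e k)
    (h : ∀ᶠ k in atTop, e k ≤ e (k + 1)) : ¬ Tendsto e atTop (𝓝 0) := by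
  intro ht
  obtain ⟨N, hN⟩ := eventually_atTop.1 h
  have hmono : ∀ k, e N ≤ e (N + k) := by
    intro k
    induction k with
    | zero => simp
    | succ k ih => exact ih.trans (hN (N + k) (by omega))
  have h1 : ∀ᶠ k in atTop, e k < e N := ht.eventually (gt_mem_nhds (hpos N))
  obtain ⟨M', hM'⟩ := eventually_atTop.1 h1
  have := hM' (N + M') (by omega)
  have := hmono M'
  linarith

/-- No orbit of the reduced planar map started in the trapping region, away from its lower side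
and from the repelling fixed point, converges. -/
theorem planar_not_conv {z : ℝ × ℝ} (hz : z ∈ K) (hd : 0 < z.2) (hne : z ≠ p0) (L : ℝ × ℝ) :
    ¬ Tendsto (fun k => F^[k] z) atTop (𝓝 L) := by
  intro hL
  have hK : ∀ k, F^[k] z ∈ K := by
    intro k
    induction k with
    | zero => exact hz
    | succ k ih => rw [Function.iterate_succ_apply']; exact invariant hall ih
  have hLK : L ∈ K := isClosed_K.mem_of_tendsto hL (Eventually.of_forall hK)
  have hL1 : Tendsto (fun k => F^[k + 1] z) atTop (𝓝 L) := (tendsto_add_atTop_iff_nat 1).2 hL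
  have hFc : ContinuousOn F K := continuousOn_F.mono K_sub
  have hFL : Tendsto (fun k => F (F^[k] z)) atTop (𝓝 (F L)) := by
    have h1 : Tendsto (fun k => F^[k] z) atTop (𝓝[K] L) :=
      tendsto_nhdsWithin_iff.2 ⟨hL, Eventually.of_forall hK⟩
    exact (hFc L hLK).tendsto.comp h1
  have hfix : F L = L := by
    refine tendsto_nhds_unique hFL ?_
    simpa only [Function.iterate_succ_apply'] using hL1
  have hd' : ∀ k, 0 < (F^[k] z).2 := by
    intro k
    induction k with
    | zero => exact hd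
    | succ k ih =>
      rw [Function.iterate_succ_apply']
      obtain ⟨b1, b2, b3, b4⟩ := K_bounds (hK k)
      have hT := T_pos (c := (F^[k] z).1) (d := (F^[k] z).2) (by linarith) (by linarith) b3
      have hq := q2_pos (c := (F^[k] z).1) (d := (F^[k] z).2) (by linarith) (by linarith) b3
        (by linarith)
      apply Real.sqrt_pos.2
      positivity
  rcases (K_bounds hLK).2.2.1.lt_or_eq with hL2 | hL2
  · -- the limit is the repelling fixed point
    have hLp : L = p0 := fixed_unique hLK hfix hL2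
    subst hLp
    have hne' : ∀ k, F^[k] z ≠ p0 := by
      intro k
      induction k with
      | zero => exact hne
      | succ k ih =>
        rw [Function.iterate_succ_apply']
        intro hcon
        exact ih (inj_p0 (hK k) hcon)
    have hpos : ∀ k, 0 < En (F^[k] z - p0) := fun k => En_pos (sub_ne_zero.2 (hne' k))
    refine not_tendsto_zero hpos ?_ ?_
    · filter_upwards [hL.eventually local_exp] with k hk
      rw [Function.iterate_succ_apply']
      exact hk
    · have hEc : Continuous En := by unfold En; fun_prop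
      have h0 : Tendsto (fun k => F^[k] z - p0) atTop (𝓝 (p0 - p0)) := hL.sub_const p0
      have := (hEc.tendsto (p0 - p0)).comp h0
      have hE0 : En (p0 - p0) = 0 := by simp [En]
      rw [hE0] at this
      exact this
  · have hTL := fixed_bottom hLK hfix hL2.symm
    have hTc : Continuous (fun w : ℝ × ℝ => T w.1 w.2) := by unfold T; fun_prop
    have hev : ∀ᶠ k in atTop, 10976 < T (F^[k] z).1 (F^[k] z).2 :=
      ((hTc.tendsto L).comp hL).eventually (lt_mem_nhds hTL)
    refine not_tendsto_zero (e := fun k => (F^[k] z).2) hd' ?_ ?_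
    · filter_upwards [hev] with k hk
      rw [Function.iterate_succ_apply']
      obtain ⟨b1, b2, b3, b4⟩ := K_bounds (hK k)
      have hq := q2_pos (c := (F^[k] z).1) (d := (F^[k] z).2) (by linarith) (by linarith) b3
        (by linarith)
      change (F^[k] z).2 ≤ F2 (F^[k] z).1 (F^[k] z).2
      unfold F2
      apply Real.le_sqrt_of_sq_le
      rw [le_div_iff₀ hq]
      have hs : 0 < 1 - (F^[k] z).2 ^ 2 := by nlinarith
      have hq' : q2 (F^[k] z).1 (F^[k] z).2 ≤ T (F^[k] z).1 (F^[k] z).2 := by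
        unfold q2
        nlinarith [mul_pos hs (sub_pos.2 hk), mul_nonneg hs.le (sq_nonneg (F^[k] z).2)]
      gcongr
    · have := (continuous_snd.tendsto L).comp hL
      rw [hL2]
      exact this

end

end Pool.Agent.T9h70.Corr
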