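import Mathlib

set_option autoImplicit false

namespace Pool.Agent.T9h70.Corr

/-- value at `t` of the polynomial with the given integer coefficients (lowest first). -/
def ev (p : List ℤ) (t : ℝ) : ℝ :=
  match p with
  | [] => 0
  | a :: l => (a : ℝ) + t * ev l t

def padd : List ℤ → List ℤ → List ℤ
  | [], q => q
  | p, [] => p
  | a :: p, b :: q => (a + b) :: padd p q

def psmul (a : ℤ) : List ℤ → List ℤ
  | [] => []
  | b :: q => (a * b) :: psmul a q

def pmul : List ℤ → List ℤ → List ℤ
  | [], _ => []
  | a :: p, q => padd (psmul a q) (0 :: pmul p q)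

/-- lower bound of the values on `[0,1]`. -/
def lb : List ℤ → ℤ
  | [] => 0
  | a :: l => a + min 0 (lb l)

lemma ev_padd (p q : List ℤ) (t : ℝ) : ev (padd p q) t = ev p t + ev q t := by
  induction p generalizing q with
  | nil => simp [padd, ev]
  | cons a p ih =>
    cases q with
    | nil => simp [padd, ev]
    | cons b q => simp only [padd, ev, ih]; push_cast; ring

lemma ev_psmul (a : ℤ) (q : List ℤ) (t : ℝ) : ev (psmul a q) t = a * ev q t := by
  induction q with
  | nil => simp [psmul, ev]
  | cons b q ih => simp only [psmul, ev, ih]; push_cast; ring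

lemma ev_pmul (p q : List ℤ) (t : ℝ) : ev (pmul p q) t = ev p t * ev q t := by
  induction p with
  | nil => simp [pmul, ev]
  | cons a p ih => simp only [pmul, ev_padd, ev_psmul, ev, ih]; push_cast; ring

lemma lb_le (p : List ℤ) (t : ℝ) (h0 : 0 ≤ t) (h1 : t ≤ 1) : (lb p : ℝ) ≤ ev p t := by
  induction p with
  | nil => simp [lb, ev]
  | cons a l ih =>
    simp only [lb, ev]
    push_cast
    have : min 0 (lb l : ℝ) ≤ t * ev l t := by
      rcases le_total 0 (lb l : ℝ) with h | h
      · rw [min_eq_left h]
        exact mul_nonneg h0 (h.trans ih)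
      · rw [min_eq_right h]
        nlinarith [mul_nonneg h0 (sub_nonneg.2 ih)]
    linarith

lemma ev_nonneg {p : List ℤ} (hp : 0 ≤ lb p) {t : ℝ} (h0 : 0 ≤ t) (h1 : t ≤ 1) : 0 ≤ ev p t :=
  le_trans (by exact_mod_cast hp) (lb_le p t h0 h1)

end Pool.Agent.T9h70.Corr
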