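import Pool.Agent.T9h70.Corr.Dyn

set_option autoImplicit false

namespace Pool.Agent.T9h70.Corr

noncomputable section

open Filter Topology ContinuousLinearMap

abbrev X1 : ℝ × ℝ →L[ℝ] ℝ := ContinuousLinearMap.fst ℝ ℝ ℝ
abbrev X2 : ℝ × ℝ →L[ℝ] ℝ := ContinuousLinearMap.snd ℝ ℝ ℝ

lemma has1 : HasFDerivAt (fun z : ℝ × ℝ => z.1) X1 p0 := hasFDerivAt_fst
lemma has2 : HasFDerivAt (fun z : ℝ × ℝ => z.2) X2 p0 := hasFDerivAt_snd

lemma hasT : HasFDerivAt (fun z : ℝ × ℝ => T z.1 z.2)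
    ((-150920 / 17 : ℝ) • X1 + (258720 / 17 : ℝ) • X2) p0 := by
  have h := (((((has1.pow 2).const_mul (9555 : ℝ)).const_add (14003 : ℝ)).add
    ((has2.pow 2).const_mul (8928 : ℝ))).sub (has1.const_mul (14630 : ℝ))).add
    (has2.const_mul (13376 : ℝ)) |>.add ((has1.const_mul (4480 : ℝ)).mul has2)
  refine (h.congr_fderiv ?_).congr_of_eventuallyEq ?_
  · ext <;> simp [p0] <;> norm_num
  · filter_upwards with z
    simp [T]

lemma T_p0 : T p0.1 p0.2 = 3169320 / 289 := by unfold T p0; norm_num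
lemma q1_p0 : q1 p0.1 p0.2 = 3169320 / 289 := by unfold q1 T p0; norm_num
lemma q2_p0 : q2 p0.1 p0.2 = 3169320 / 289 := by unfold q2 T p0; norm_num

lemma hasq1 : HasFDerivAt (fun z : ℝ × ℝ => q1 z.1 z.2)
    ((2 * (5 / 17) * (3169320 / 289) + (5 / 17) ^ 2 * (-150920 / 17)
      - 48020 * (5 / 17) * (264 / 289) : ℝ) • X1 + ((5 / 17) ^ 2 * (258720 / 17) : ℝ) • X2) p0 := by
  have h := ((has1.pow 2).mul hasT).add
    ((((has1.pow 2).const_sub (1 : ℝ)).pow 2).const_mul (12005 : ℝ))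
  refine (h.congr_fderiv ?_).congr_of_eventuallyEq ?_
  · have := T_p0
    ext <;> simp [this] <;> norm_num [p0]
  · filter_upwards with z
    simp [q1]

lemma hasq2 : HasFDerivAt (fun z : ℝ × ℝ => q2 z.1 z.2)
    (((1 / 34) ^ 2 * (-150920 / 17) : ℝ) • X1 + (2 * (1 / 34) * (3169320 / 289)
      + (1 / 34) ^ 2 * (258720 / 17) - 43904 * (1 / 34) * (1155 / 1156) : ℝ) • X2) p0 := by
  have h := ((has2.pow 2).mul hasT).add
    ((((has2.pow 2).const_sub (1 : ℝ)).pow 2).const_mul (10976 : ℝ))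
  refine (h.congr_fderiv ?_).congr_of_eventuallyEq ?_
  · have := T_p0
    ext <;> simp [this] <;> norm_num [p0]
  · filter_upwards with z
    simp [q2]

lemma hasF1 : HasFDerivAt (fun z : ℝ × ℝ => F1 z.1 z.2)
    ((1978 / 2023 : ℝ) • X1 + (2640 / 14161 : ℝ) • X2) p0 := by
  have hn := (has1.pow 2).mul hasT
  have hne : q1 p0.1 p0.2 ≠ 0 := by rw [q1_p0]; norm_num
  have hd := hn.mul ((hasDerivAt_inv hne).comp_hasFDerivAt p0 hasq1)
  have hT := T_p0
  have hq := q1_p0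
  have hval : ((fun x : ℝ × ℝ => x.1 ^ 2) * (fun z : ℝ × ℝ => T z.1 z.2) *
      (Inv.inv ∘ fun z : ℝ × ℝ => q1 z.1 z.2)) p0 = (5 / 17) ^ 2 := by
    simp only [Pi.mul_apply, Function.comp_apply, hT, hq]
    norm_num [p0]
  have h := hd.sqrt (by rw [hval]; norm_num)
  refine (h.congr_fderiv ?_).congr_of_eventuallyEq ?_
  · rw [hval, Real.sqrt_sq (by norm_num)]
    ext <;> simp [hT, hq] <;> norm_num [p0]
  · filter_upwards with z
    simp [F1, div_eq_mul_inv]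

lemma hasF2 : HasFDerivAt (fun z : ℝ × ℝ => F2 z.1 z.2)
    ((-55 / 4624 : ℝ) • X1 + (2066 / 2023 : ℝ) • X2) p0 := by
  have hn := (has2.pow 2).mul hasT
  have hne : q2 p0.1 p0.2 ≠ 0 := by rw [q2_p0]; norm_num
  have hd := hn.mul ((hasDerivAt_inv hne).comp_hasFDerivAt p0 hasq2)
  have hT := T_p0
  have hq := q2_p0
  have hval : ((fun x : ℝ × ℝ => x.2 ^ 2) * (fun z : ℝ × ℝ => T z.1 z.2) *
      (Inv.inv ∘ fun z : ℝ × ℝ => q2 z.1 z.2)) p0 = (1 / 34) ^ 2 := by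
    simp only [Pi.mul_apply, Function.comp_apply, hT, hq]
    norm_num [p0]
  have h := hd.sqrt (by rw [hval]; norm_num)
  refine (h.congr_fderiv ?_).congr_of_eventuallyEq ?_
  · rw [hval, Real.sqrt_sq (by norm_num)]
    ext <;> simp [hT, hq] <;> norm_num [p0]
  · filter_upwards with z
    simp [F2, div_eq_mul_inv]

end

end Pool.Agent.T9h70.Corr
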