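import Pool.Agent.T9h70.Corr.Data

set_option autoImplicit false

namespace Pool.Agent.T9h70.Corr

noncomputable section

/-- the common polynomial of the reduced planar map. -/
def T (c d : ℝ) : ℝ :=
  14003 + 9555 * c ^ 2 + 8928 * d ^ 2 - 14630 * c + 13376 * d + 4480 * c * d

def q1 (c d : ℝ) : ℝ := c ^ 2 * T c d + 12005 * (1 - c ^ 2) ^ 2

def q2 (c d : ℝ) : ℝ := d ^ 2 * T c d + 10976 * (1 - d ^ 2) ^ 2

/-- first coordinate of the reduced planar map. -/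
def F1 (c d : ℝ) : ℝ := √(c ^ 2 * T c d / q1 c d)

/-- second coordinate of the reduced planar map. -/
def F2 (c d : ℝ) : ℝ := √(d ^ 2 * T c d / q2 c d)

lemma F1_eq {c d : ℝ} (hc : 0 ≤ c) : F1 c d = c * √(T c d / q1 c d) := by
  unfold F1
  rw [mul_div_assoc, Real.sqrt_mul (sq_nonneg c), Real.sqrt_sq hc]

lemma F2_eq {c d : ℝ} (hd : 0 ≤ d) : F2 c d = d * √(T c d / q2 c d) := by
  unfold F2
  rw [mul_div_assoc, Real.sqrt_mul (sq_nonneg d), Real.sqrt_sq hd]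

lemma sqrt_up {t q k n : ℝ} (ht : 0 < t) (hq : 0 < q) (hk : 0 < k) (hn : 0 < n) :
    √(t / q) ≤ (n ^ 2 * q + k ^ 2 * t) / (2 * n * k * q) := by
  rw [Real.sqrt_le_left (by positivity), div_pow, div_le_div_iff₀ hq (by positivity)]
  nlinarith [mul_nonneg hq.le (sq_nonneg (n ^ 2 * q - k ^ 2 * t))]

lemma sqrt_low {t q k n : ℝ} (ht : 0 < t) (hq : 0 < q) (hk : 0 < k) (hn : 0 < n) :
    2 * n * k * t / (n ^ 2 * q + k ^ 2 * t) ≤ √(t / q) := by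
  apply Real.le_sqrt_of_sq_le
  rw [div_pow, div_le_div_iff₀ (by positivity) hq]
  nlinarith [mul_nonneg ht.le (sq_nonneg (n ^ 2 * q - k ^ 2 * t))]

abbrev EdgeD := ℤ × ℤ × ℤ × ℤ × ℤ × ℤ

def alf (j : EdgeD) : ℤ := j.2.2.2.1 - j.2.1
def bet (j : EdgeD) : ℤ := j.1 - j.2.2.1
def gam (j : EdgeD) : ℤ := alf j * j.1 + bet j * j.2.1

def Mr : ℝ := 1000000

lemma Mr_eq : (M : ℝ) = Mr := by norm_num [M, Mr]

/-- slack of the constraint attached to an edge. -/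
def con (j : EdgeD) (z : ℝ × ℝ) : ℝ :=
  (gam j : ℝ) - alf j * (Mr * z.1) - bet j * (Mr * z.2)

/-- point of an edge. -/
def pt (i : EdgeD) (t : ℝ) : ℝ × ℝ :=
  (((i.1 : ℝ) + t * (i.2.2.1 - i.1)) / Mr, ((i.2.1 : ℝ) + t * (i.2.2.2.1 - i.2.1)) / Mr)

lemma ev2 (a b : ℤ) (t : ℝ) : ev [a, b] t = a + t * b := by simp [ev]

lemma ev1 (a : ℤ) (t : ℝ) : ev [a] t = a := by simp [ev]

lemma ev_pT (C D : List ℤ) (t c d : ℝ) (hC : ev C t = Mr * c) (hD : ev D t = Mr * d) :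
    ev (pT C D) t = Mr ^ 2 * T c d := by
  simp only [pT, ev_padd, ev_psmul, ev_pmul, ev1, hC, hD]
  push_cast
  rw [Mr_eq]
  unfold T
  ring

lemma ev_pQ1 (C P : List ℤ) (t c d : ℝ) (hC : ev C t = Mr * c) (hP : ev P t = Mr ^ 2 * T c d) :
    ev (pQ1 C P) t = Mr ^ 4 * q1 c d := by
  simp only [pQ1, ev_padd, ev_psmul, ev_pmul, ev1, hC, hP]
  push_cast
  rw [Mr_eq]
  unfold q1
  ring

lemma ev_pQ2 (D P : List ℤ) (t c d : ℝ) (hD : ev D t = Mr * d) (hP : ev P t = Mr ^ 2 * T c d) :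
    ev (pQ2 D P) t = Mr ^ 4 * q2 c d := by
  simp only [pQ2, ev_padd, ev_psmul, ev_pmul, ev1, hD, hP]
  push_cast
  rw [Mr_eq]
  unfold q2
  ring

lemma ev_pU (k : ℤ) (P Q : List ℤ) (t x y : ℝ) (hP : ev P t = Mr ^ 2 * x)
    (hQ : ev Q t = Mr ^ 4 * y) :
    ev (pU k P Q) t = Mr ^ 4 * ((N : ℝ) ^ 2 * y + (k : ℝ) ^ 2 * x) := by
  simp only [pU, ev_padd, ev_psmul, hP, hQ]
  push_cast
  rw [Mr_eq]
  ring

lemma Npos : (0 : ℝ) < (N : ℝ) := by norm_num [N]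

lemma sound_pos {c d k1 k2 al be ga : ℝ} (hc : 0 < c) (hd : 0 ≤ d) (hT : 0 < T c d)
    (hq1 : 0 < q1 c d) (hq2 : 0 < q2 c d) (hk1 : 0 < k1) (hk2 : 0 < k2)
    (ha : 0 ≤ al) (hb : 0 ≤ be)
    (h : 0 ≤ ga * (2 * k1 * k2 * N * ((Mr ^ 4 * q1 c d) * (Mr ^ 4 * q2 c d)))
      + (-al * (k2 * ((Mr * c) * ((Mr ^ 4 * (N ^ 2 * q1 c d + k1 ^ 2 * T c d)) *
          (Mr ^ 4 * q2 c d))))
        + -be * (k1 * ((Mr * d) * ((Mr ^ 4 * (N ^ 2 * q2 c d + k2 ^ 2 * T c d)) *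
          (Mr ^ 4 * q1 c d)))))) :
    al * (Mr * F1 c d) + be * (Mr * F2 c d) ≤ ga := by
  have hM : (0 : ℝ) < Mr := by norm_num [Mr]
  have hN := Npos
  rw [F1_eq hc.le, F2_eq hd]
  have h1 := sqrt_up hT hq1 hk1 hN
  have h2 := sqrt_up hT hq2 hk2 hN
  set s1 := √(T c d / q1 c d)
  set s2 := √(T c d / q2 c d)
  set t := T c d
  set x := q1 c d
  set y := q2 c d
  set n : ℝ := (N : ℝ)
  have e1 : al * (Mr * (c * s1)) ≤ al * (Mr * (c * ((n ^ 2 * x + k1 ^ 2 * t) /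
      (2 * n * k1 * x)))) := by gcongr
  have e2 : be * (Mr * (d * s2)) ≤ be * (Mr * (d * ((n ^ 2 * y + k2 ^ 2 * t) /
      (2 * n * k2 * y)))) := by gcongr
  have e3 : al * (Mr * (c * ((n ^ 2 * x + k1 ^ 2 * t) / (2 * n * k1 * x)))) +
      be * (Mr * (d * ((n ^ 2 * y + k2 ^ 2 * t) / (2 * n * k2 * y)))) ≤ ga := by
    have hden : 0 < 2 * n * k1 * k2 * x * y := by positivity
    rw [← sub_nonneg]
    have key : ga - (al * (Mr * (c * ((n ^ 2 * x + k1 ^ 2 * t) / (2 * n * k1 * x)))) +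
      be * (Mr * (d * ((n ^ 2 * y + k2 ^ 2 * t) / (2 * n * k2 * y))))) =
      (ga * (2 * n * k1 * k2 * x * y) - al * Mr * c * (n ^ 2 * x + k1 ^ 2 * t) * (k2 * y) -
        be * Mr * d * (n ^ 2 * y + k2 ^ 2 * t) * (k1 * x)) / (2 * n * k1 * k2 * x * y) := by
      field_simp
      ring
    rw [key]
    apply div_nonneg _ hden.le
    have h8 : (0 : ℝ) < Mr ^ 8 := by positivity
    by_contra hneg
    push Not at hneg
    have := mul_neg_of_pos_of_neg h8 hneg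
    nlinarith [this, h]
  linarith

lemma sound_neg {c d k1 k2 al be ga : ℝ} (hc : 0 < c) (hd : 0 ≤ d) (hT : 0 < T c d)
    (hq1 : 0 < q1 c d) (hq2 : 0 < q2 c d) (hk1 : 0 < k1) (hk2 : 0 < k2)
    (ha : al < 0) (hb : 0 ≤ be)
    (h : 0 ≤ ga * (2 * k2 * N * ((Mr ^ 4 * q2 c d) *
          (Mr ^ 4 * (N ^ 2 * q1 c d + k1 ^ 2 * T c d))))
      + (-al * (4 * k1 * k2 * (N * N) * (Mr * Mr) * ((Mr * c) * ((Mr ^ 2 * T c d) *
          (Mr ^ 4 * q2 c d))))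
        + -be * ((Mr * d) * ((Mr ^ 4 * (N ^ 2 * q1 c d + k1 ^ 2 * T c d)) *
          (Mr ^ 4 * (N ^ 2 * q2 c d + k2 ^ 2 * T c d)))))) :
    al * (Mr * F1 c d) + be * (Mr * F2 c d) ≤ ga := by
  have hM : (0 : ℝ) < Mr := by norm_num [Mr]
  have hN := Npos
  rw [F1_eq hc.le, F2_eq hd]
  have h1 := sqrt_low hT hq1 hk1 hN
  have h2 := sqrt_up hT hq2 hk2 hN
  set s1 := √(T c d / q1 c d)
  set s2 := √(T c d / q2 c d)
  set t := T c d
  set x := q1 c d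
  set y := q2 c d
  set n : ℝ := (N : ℝ)
  have e1 : (-al) * (Mr * (c * (2 * n * k1 * t / (n ^ 2 * x + k1 ^ 2 * t)))) ≤
      (-al) * (Mr * (c * s1)) := by
    have : 0 ≤ -al := by linarith
    gcongr
  have e2 : be * (Mr * (d * s2)) ≤ be * (Mr * (d * ((n ^ 2 * y + k2 ^ 2 * t) /
      (2 * n * k2 * y)))) := by gcongr
  have e3 : be * (Mr * (d * ((n ^ 2 * y + k2 ^ 2 * t) / (2 * n * k2 * y)))) -
      (-al) * (Mr * (c * (2 * n * k1 * t / (n ^ 2 * x + k1 ^ 2 * t)))) ≤ ga := by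
    have hU : 0 < n ^ 2 * x + k1 ^ 2 * t := by positivity
    have hden : 0 < 2 * n * k2 * y * (n ^ 2 * x + k1 ^ 2 * t) := by positivity
    rw [← sub_nonneg]
    have key : ga - (be * (Mr * (d * ((n ^ 2 * y + k2 ^ 2 * t) / (2 * n * k2 * y)))) -
      (-al) * (Mr * (c * (2 * n * k1 * t / (n ^ 2 * x + k1 ^ 2 * t))))) =
      (ga * (2 * n * k2 * y * (n ^ 2 * x + k1 ^ 2 * t))
        - be * Mr * d * (n ^ 2 * y + k2 ^ 2 * t) * (n ^ 2 * x + k1 ^ 2 * t)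
        - al * Mr * c * (4 * n ^ 2 * k1 * k2 * t * y)) /
        (2 * n * k2 * y * (n ^ 2 * x + k1 ^ 2 * t)) := by
      field_simp
      ring
    rw [key]
    apply div_nonneg _ hden.le
    have h8 : (0 : ℝ) < Mr ^ 8 := by positivity
    by_contra hneg
    push Not at hneg
    have := mul_neg_of_pos_of_neg h8 hneg
    nlinarith [this, h]
  linarith

end

end Pool.Agent.T9h70.Corr
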