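import Pool.Agent.T9h70.Corr.Sound

set_option autoImplicit false

namespace Pool.Agent.T9h70.Corr

noncomputable section

open Set

lemma T_pos {c d : ℝ} (hc : 0 ≤ c) (hc1 : c ≤ 1 / 2) (hd : 0 ≤ d) : 8000 < T c d := by
  unfold T
  nlinarith [mul_nonneg hc hd, sq_nonneg d, sq_nonneg (c - 1 / 2)]

lemma q1_pos {c d : ℝ} (hc : 0 ≤ c) (hc1 : c ≤ 1 / 2) (hd : 0 ≤ d) : 0 < q1 c d := by
  unfold q1
  have := T_pos hc hc1 hd
  have h1 : 0 < (1 - c ^ 2) := by nlinarith
  positivity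

lemma q2_pos {c d : ℝ} (hc : 0 ≤ c) (hc1 : c ≤ 1 / 2) (hd : 0 ≤ d) (hd1 : d < 1) :
    0 < q2 c d := by
  unfold q2
  have := T_pos hc hc1 hd
  have h1 : 0 < (1 - d ^ 2) := by nlinarith
  positivity

/-- all checks for the edges in the list `L` against all constraints. -/
def chkAll (L : List EdgeD) : Bool := L.all (chkEdge edges)

lemma chkEdge_sound {i j : EdgeD} (hi : chkEdge edges i = true) (hj : j ∈ edges)
    (hk1 : 0 < i.2.2.2.2.1) (hk2 : 0 < i.2.2.2.2.2) (hb : 0 ≤ bet j)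
    {t : ℝ} (h0 : 0 ≤ t) (h1 : t ≤ 1) {c d : ℝ} (hp : pt i t = (c, d)) (hc : 0 < c)
    (hc1 : c ≤ 1 / 2) (hd : 0 ≤ d) (hd1 : d < 1) :
    (alf j : ℝ) * (Mr * F1 c d) + bet j * (Mr * F2 c d) ≤ gam j := by
  obtain ⟨C0, D0, C1, D1, k1, k2⟩ := i
  obtain ⟨C0', D0', C1', D1', k1', k2'⟩ := j
  have hM : (0 : ℝ) < Mr := by norm_num [Mr]
  simp only [pt, Prod.mk.injEq] at hp
  obtain ⟨hpc, hpd⟩ := hp
  have hC : ev [C0, C1 - C0] t = Mr * c := by
    rw [ev2, ← hpc]; push_cast; field_simp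
  have hD : ev [D0, D1 - D0] t = Mr * d := by
    rw [ev2, ← hpd]; push_cast; field_simp
  have hTp : 0 < T c d := by have := T_pos hc.le hc1 hd; linarith
  have hq1 := q1_pos hc.le hc1 hd
  have hq2 := q2_pos hc.le hc1 hd hd1
  simp only [chkEdge, chkEdgeQ, List.all_eq_true] at hi
  have hij := hi _ hj
  simp only [chk1] at hij
  simp only [alf, bet, gam] at *
  set C : List ℤ := [C0, C1 - C0] with hCdef
  set D : List ℤ := [D0, D1 - D0] with hDdef
  have eT := ev_pT C D t c d hC hD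
  have eQ1 := ev_pQ1 C (pT C D) t c d hC eT
  have eQ2 := ev_pQ2 D (pT C D) t c d hD eT
  have eU1 := ev_pU k1 (pT C D) (pQ1 C (pT C D)) t (T c d) (q1 c d) eT eQ1
  have eU2 := ev_pU k2 (pT C D) (pQ2 D (pT C D)) t (T c d) (q2 c d) eT eQ2
  have hk1' : (0 : ℝ) < (k1 : ℝ) := by exact_mod_cast hk1
  have hk2' : (0 : ℝ) < (k2 : ℝ) := by exact_mod_cast hk2
  have hb' : (0 : ℝ) ≤ ((C0' - C1' : ℤ) : ℝ) := by exact_mod_cast hb
  split_ifs at hij with hal
  · simp only [chkP, decide_eq_true_eq] at hij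
    have hv := ev_nonneg hij h0 h1
    simp only [ev_padd, ev_psmul, ev_pmul, eQ1, eQ2, eU1, eU2, hC, hD] at hv
    have hal' : (0 : ℝ) ≤ ((D1' - D0' : ℤ) : ℝ) := by exact_mod_cast hal
    refine sound_pos hc hd hTp hq1 hq2 hk1' hk2' hal' hb' ?_
    push_cast at hv ⊢
    linarith [hv]
  · simp only [chkP, decide_eq_true_eq] at hij
    have hv := ev_nonneg hij h0 h1
    simp only [ev_padd, ev_psmul, ev_pmul, eT, eQ2, eU1, eU2, hC, hD] at hv
    have hal' : ((D1' - D0' : ℤ) : ℝ) < 0 := by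
      have : D1' - D0' < 0 := by omega
      exact_mod_cast this
    refine sound_neg hc hd hTp hq1 hq2 hk1' hk2' hal' hb' ?_
    push_cast at hv ⊢
    rw [Mr_eq] at hv
    linarith [hv]

/-- the trapping region. -/
def K : Set (ℝ × ℝ) := {z | 0 ≤ z.2 ∧ ∀ j ∈ edges, 0 ≤ con j z}

def icon (j : EdgeD) (x y : ℤ) : ℤ := gam j - alf j * x - bet j * y

def geo1 (i : EdgeD) : Bool :=
  decide (0 < bet i) && decide (0 < i.2.2.2.2.1) && decide (0 < i.2.2.2.2.2) &&
  ((decide (i.2.1 = 0) && decide (0 < i.2.2.2.1)) ||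
    edges.any (fun j => decide (icon j i.1 i.2.1 = 0) && decide (0 < icon j i.2.2.1 i.2.2.2.1))) &&
  ((decide (i.2.2.2.1 = 0) && decide (0 < i.2.1)) ||
    edges.any (fun j => decide (icon j i.2.2.1 i.2.2.2.1 = 0) && decide (0 < icon j i.1 i.2.1)))

theorem geo : edges.all geo1 = true := by decide +kernel

lemma Mr_pos : (0 : ℝ) < Mr := by norm_num [Mr]

lemma bet_pos {i : EdgeD} (hi : i ∈ edges) : 0 < bet i := by
  have := List.all_eq_true.1 geo i hi
  simp only [geo1, Bool.and_eq_true, decide_eq_true_eq] at this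
  exact this.1.1.1.1

lemma k1_pos {i : EdgeD} (hi : i ∈ edges) : 0 < i.2.2.2.2.1 := by
  have := List.all_eq_true.1 geo i hi
  simp only [geo1, Bool.and_eq_true, decide_eq_true_eq] at this
  exact this.1.1.1.2

lemma k2_pos {i : EdgeD} (hi : i ∈ edges) : 0 < i.2.2.2.2.2 := by
  have := List.all_eq_true.1 geo i hi
  simp only [geo1, Bool.and_eq_true, decide_eq_true_eq] at this
  exact this.1.1.2

lemma con_pt (j i : EdgeD) (t : ℝ) : con j (pt i t) =
    (1 - t) * (icon j i.1 i.2.1 : ℝ) + t * (icon j i.2.2.1 i.2.2.2.1 : ℝ) := by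
  have hM := Mr_pos
  unfold con pt icon
  push_cast
  field_simp
  ring

lemma tight {i : EdgeD} (hi : i ∈ edges) {z : ℝ × ℝ} (hz : z ∈ K) (h : con i z = 0) :
    ∃ t : ℝ, 0 ≤ t ∧ t ≤ 1 ∧ pt i t = z := by
  have hM := Mr_pos
  have hb : (0 : ℝ) < (bet i : ℝ) := by exact_mod_cast bet_pos hi
  have hb' : (0 : ℝ) < (i.1 : ℝ) - i.2.2.1 := by
    have : (bet i : ℝ) = (i.1 : ℝ) - i.2.2.1 := by simp [bet]
    linarith
  set t : ℝ := (i.1 - Mr * z.1) / ((i.1 : ℝ) - i.2.2.1) with ht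
  have h1 : Mr * z.1 = i.1 + t * (i.2.2.1 - i.1) := by
    rw [ht]; field_simp; ring
  have h2 : Mr * z.2 = i.2.1 + t * (i.2.2.2.1 - i.2.1) := by
    have h3 : (bet i : ℝ) * (Mr * z.2) = bet i * (i.2.1 + t * (i.2.2.2.1 - i.2.1)) := by
      unfold con at h
      rw [h1] at h
      have : (gam i : ℝ) = alf i * i.1 + bet i * i.2.1 := by simp [gam]
      rw [this] at h
      have ha : (alf i : ℝ) = i.2.2.2.1 - i.2.1 := by simp [alf]
      have hbb : (bet i : ℝ) = (i.1 : ℝ) - i.2.2.1 := by simp [bet]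
      rw [ha] at h
      rw [hbb] at h ⊢
      linarith [h]
    exact mul_left_cancel₀ hb.ne' h3
  have hpt : pt i t = z := by
    unfold pt
    rw [← h1, ← h2]
    ext <;> field_simp
  have hg := List.all_eq_true.1 geo i hi
  simp only [geo1, Bool.and_eq_true, Bool.or_eq_true, decide_eq_true_eq, List.any_eq_true] at hg
  obtain ⟨⟨_, hg1⟩, hg2⟩ := hg
  have hz2 : 0 ≤ Mr * z.2 := mul_nonneg hM.le hz.1
  refine ⟨t, ?_, ?_, hpt⟩
  · rcases hg1 with ⟨h0, h0'⟩ | ⟨j, hj, hj0, hj1⟩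
    · rw [h2, h0] at hz2
      have h0'' : (0 : ℝ) < (i.2.2.2.1 : ℝ) := by exact_mod_cast h0'
      push_cast at hz2
      nlinarith
    · have := hz.2 j hj
      rw [← hpt, con_pt, hj0] at this
      have hj1' : (0 : ℝ) < (icon j i.2.2.1 i.2.2.2.1 : ℝ) := by exact_mod_cast hj1
      push_cast at this
      nlinarith
  · rcases hg2 with ⟨h0, h0'⟩ | ⟨j, hj, hj0, hj1⟩
    · rw [h2, h0] at hz2
      have h0'' : (0 : ℝ) < (i.2.1 : ℝ) := by exact_mod_cast h0'
      push_cast at hz2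
      nlinarith
    · have := hz.2 j hj
      rw [← hpt, con_pt, hj0] at this
      have hj1' : (0 : ℝ) < (icon j i.1 i.2.1 : ℝ) := by exact_mod_cast hj1
      push_cast at this
      nlinarith

lemma K_bounds {z : ℝ × ℝ} (hz : z ∈ K) :
    185 / 1000 ≤ z.1 ∧ z.1 ≤ 471 / 1000 ∧ 0 ≤ z.2 ∧ z.2 ≤ 51 / 1000 := by
  have a1 : ((470001, 0, 470000, 7000, 1027, 1113) : EdgeD) ∈ edges := by decide +kernel
  have a2 : ((191489, 3745, 185000, 0, 1023, 995) : EdgeD) ∈ edges := by decide +kernel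
  have h1 := hz.2 _ a1
  have h2 := hz.2 _ a2
  have h0 := hz.1
  simp only [con, alf, bet, gam, Mr] at h1 h2
  push_cast at h1 h2
  have h3 : z.1 ≤ 471 / 1000 := by linarith
  have h4 : 185 / 1000 ≤ z.1 := by linarith
  refine ⟨h4, h3, h0, ?_⟩
  have a3 : ((340033, 50540, 335961, 50541, 1012, 1025) : EdgeD) ∈ edges := by decide +kernel
  have h5 := hz.2 _ a3
  simp only [con, alf, bet, gam, Mr] at h5
  push_cast at h5
  linarith

lemma frac_le {X X' A A' : ℝ} (hX : 0 ≤ X) (hXX : X ≤ X') (hA : 0 < A') (hAA : A' ≤ A) :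
    X / (X + A) ≤ X' / (X' + A') := by
  have h1 : 0 < X + A := by linarith
  have h2 : 0 < X' + A' := by linarith
  rw [div_le_div_iff₀ h1 h2]
  nlinarith [mul_nonneg hX (sub_nonneg.2 hAA), mul_nonneg (sub_nonneg.2 hXX) hA.le]

lemma frac_lt {X X' A A' : ℝ} (hX : 0 ≤ X) (hXX : X < X') (hA : 0 < A') (hAA : A' ≤ A) :
    X / (X + A) < X' / (X' + A') := by
  have h1 : 0 < X + A := by linarith
  have h2 : 0 < X' + A' := by linarith
  rw [div_lt_div_iff₀ h1 h2]
  nlinarith [mul_nonneg hX (sub_nonneg.2 hAA), mul_pos (sub_pos.2 hXX) hA]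

lemma T_mono_d {c d d' : ℝ} (hc : 0 ≤ c) (hd : 0 ≤ d) (h : d < d') : T c d < T c d' := by
  unfold T
  nlinarith [mul_nonneg hc (sub_pos.2 h).le, mul_pos (sub_pos.2 h) (sub_pos.2 h),
    mul_nonneg hd (sub_pos.2 h).le]

lemma T_anti_c {c c' d : ℝ} (hc : 0 ≤ c') (h : c' ≤ c) (hc1 : c ≤ 1 / 2) (hd : 0 ≤ d)
    (hd1 : d ≤ 1 / 10) : T c d ≤ T c' d := by
  unfold T
  nlinarith [mul_nonneg (sub_nonneg.2 h) hd, mul_nonneg (sub_nonneg.2 h) (sub_nonneg.2 hc1),
    mul_nonneg (sub_nonneg.2 h) hc, mul_nonneg (sub_nonneg.2 h) (sub_nonneg.2 hd1)]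

lemma F1_le_of_d {c d d' : ℝ} (hc : 0 < c) (hc1 : c ≤ 1 / 2) (hd : 0 ≤ d) (h : d < d') :
    F1 c d ≤ F1 c d' := by
  have hT := T_pos hc.le hc1 hd
  have h1 := T_mono_d hc.le hd h
  have h3 : 0 < 1 - c ^ 2 := by nlinarith
  unfold F1 q1
  apply Real.sqrt_le_sqrt
  apply frac_le (by positivity) _ (by positivity) le_rfl
  gcongr

lemma F2_lt_of_d {c d d' : ℝ} (hc : 0 < c) (hc1 : c ≤ 1 / 2) (hd : 0 ≤ d) (h : d < d')
    (hd' : d' < 1) : F2 c d < F2 c d' := by
  have hT := T_pos hc.le hc1 hd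
  have h1 := T_mono_d hc.le hd h
  have h3 : 0 < 1 - d' ^ 2 := by nlinarith
  have h4 : 1 - d' ^ 2 ≤ 1 - d ^ 2 := by nlinarith
  have h5 : d ^ 2 < d' ^ 2 := by nlinarith
  unfold F2 q2
  apply Real.sqrt_lt_sqrt
  · have : 0 < 1 - d ^ 2 := by linarith
    positivity
  apply frac_lt (by positivity) _ (by positivity)
  · gcongr
  · nlinarith [mul_nonneg hd (sub_pos.2 h).le, sq_nonneg d, sq_nonneg d']

lemma F1_lt_of_c {c c' d : ℝ} (hc : 0 < c') (h : c' < c) (hc1 : c ≤ 1 / 2) (hd : 0 ≤ d)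
    (hd1 : d ≤ 1 / 10) : F1 c' d < F1 c d := by
  have hT := T_pos (hc.le.trans h.le) hc1 hd
  have hT' := T_pos hc.le (h.le.trans hc1) hd
  have h3 : 0 < 1 - c ^ 2 := by nlinarith
  have h4 : 1 - c ^ 2 ≤ 1 - c' ^ 2 := by nlinarith
  unfold F1 q1
  apply Real.sqrt_lt_sqrt
  · have : 0 < 1 - c' ^ 2 := by linarith
    positivity
  apply frac_lt (by positivity) _ (by positivity)
  · gcongr
  · have e : c ^ 2 * T c d - c' ^ 2 * T c' d =
        (c - c') * ((c + c') * T c d - c' ^ 2 * (14630 - 9555 * (c + c') - 4480 * d)) := by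
      unfold T; ring
    have e2 : 0 < (c + c') * T c d - c' ^ 2 * (14630 - 9555 * (c + c') - 4480 * d) := by
      have e3 : c' * 8000 < c' * T c d := by gcongr
      have hc0 : 0 < c := hc.trans h
      have e4 : 0 ≤ c * T c d := by positivity
      have e5 : c' ^ 2 * (14630 - 9555 * (c + c') - 4480 * d) ≤ c' * (1 / 2 * 14630) := by
        have : c' ^ 2 * (14630 - 9555 * (c + c') - 4480 * d) ≤ c' ^ 2 * 14630 := by
          apply mul_le_mul_of_nonneg_left _ (sq_nonneg _)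
          nlinarith
        nlinarith [mul_nonneg hc.le (sub_nonneg.2 (h.le.trans hc1))]
      nlinarith
    nlinarith [mul_pos (sub_pos.2 h) e2]

lemma F2_le_of_c {c c' d : ℝ} (hc : 0 < c') (h : c' < c) (hc1 : c ≤ 1 / 2) (hd : 0 ≤ d)
    (hd1 : d ≤ 1 / 10) : F2 c d ≤ F2 c' d := by
  have hT := T_pos (hc.le.trans h.le) hc1 hd
  have h1 := T_anti_c hc.le h.le hc1 hd hd1
  have h3 : 0 < 1 - d ^ 2 := by nlinarith
  unfold F2 q2
  apply Real.sqrt_le_sqrt
  apply frac_le (by positivity) _ (by positivity) le_rfl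
  gcongr

lemma continuousOn_F : ContinuousOn (fun z : ℝ × ℝ => (F1 z.1 z.2, F2 z.1 z.2))
    {z | 0 ≤ z.1 ∧ z.1 ≤ 1 / 2 ∧ 0 ≤ z.2 ∧ z.2 < 1} := by
  have hT : Continuous (fun z : ℝ × ℝ => T z.1 z.2) := by unfold T; fun_prop
  have hq1 : Continuous (fun z : ℝ × ℝ => q1 z.1 z.2) := by unfold q1; fun_prop
  have hq2 : Continuous (fun z : ℝ × ℝ => q2 z.1 z.2) := by unfold q2; fun_prop
  apply ContinuousOn.prodMk
  · unfold F1
    apply Real.continuous_sqrt.comp_continuousOn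
    apply ContinuousOn.div (by fun_prop) hq1.continuousOn
    rintro z ⟨h1, h2, h3, h4⟩
    exact (q1_pos h1 h2 h3).ne'
  · unfold F2
    apply Real.continuous_sqrt.comp_continuousOn
    apply ContinuousOn.div (by fun_prop) hq2.continuousOn
    rintro z ⟨h1, h2, h3, h4⟩
    exact (q2_pos h1 h2 h3 h4).ne'

lemma K_sub : K ⊆ {z : ℝ × ℝ | 0 ≤ z.1 ∧ z.1 ≤ 1 / 2 ∧ 0 ≤ z.2 ∧ z.2 < 1} := by
  intro z hz
  obtain ⟨h1, h2, h3, h4⟩ := K_bounds hz
  exact ⟨by linarith, by linarith, h3, by linarith⟩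

lemma isClosed_K : IsClosed K := by
  have : K = {z : ℝ × ℝ | 0 ≤ z.2} ∩ ⋂ j ∈ edges, {z | 0 ≤ con j z} := by
    ext z; simp [K]
  rw [this]
  apply (isClosed_le continuous_const continuous_snd).inter
  apply isClosed_biInter
  intro j _
  apply isClosed_le continuous_const
  unfold con
  fun_prop

lemma isCompact_K : IsCompact K := by
  have h : K ⊆ Set.Icc (0 : ℝ) 1 ×ˢ Set.Icc (0 : ℝ) 1 := by
    intro z hz
    obtain ⟨h1, h2, h3, h4⟩ := K_bounds hz
    exact ⟨⟨by linarith, by linarith⟩, ⟨h3, by linarith⟩⟩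
  exact (isCompact_Icc.prod isCompact_Icc).of_isClosed_subset isClosed_K h

lemma ev_all {α β : Type*} (f : Filter α) (L : List β) (p : β → α → Prop)
    (h : ∀ b ∈ L, ∀ᶠ x in f, p b x) : ∀ᶠ x in f, ∀ b ∈ L, p b x := by
  induction L with
  | nil => simp
  | cons b L ih =>
    have h1 := h b (by simp)
    have h2 := ih (fun b' hb' => h b' (by simp [hb']))
    filter_upwards [h1, h2] with x hx1 hx2
    intro b' hb'
    rcases List.mem_cons.1 hb' with rfl | hb'
    · exact hx1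
    · exact hx2 _ hb'

/-- the reduced planar map. -/
def F (z : ℝ × ℝ) : ℝ × ℝ := (F1 z.1 z.2, F2 z.1 z.2)

lemma move {z e : ℝ × ℝ} (h : ∀ j ∈ edges, 0 < con j z) :
    ∀ᶠ s in nhdsWithin (0 : ℝ) (Set.Ioi 0), ∀ j ∈ edges, 0 < con j (z + s • e) := by
  apply ev_all
  intro j hj
  have hcont : Continuous (fun s : ℝ => con j (z + s • e)) := by
    unfold con; fun_prop
  have h0 : 0 < con j (z + (0 : ℝ) • e) := by simpa using h j hj
  exact (hcont.tendsto 0).eventually (lt_mem_nhds h0) |>.filter_mono nhdsWithin_le_nhds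

lemma edge_ok (hall : ∀ i ∈ edges, chkEdge edges i = true) {i j : EdgeD} (hi : i ∈ edges)
    (hj : j ∈ edges) {z : ℝ × ℝ} (hz : z ∈ K) (h : con i z = 0) :
    (alf j : ℝ) * (Mr * F1 z.1 z.2) + bet j * (Mr * F2 z.1 z.2) ≤ gam j := by
  obtain ⟨t, h0, h1, hp⟩ := tight hi hz h
  obtain ⟨b1, b2, b3, b4⟩ := K_bounds hz
  exact chkEdge_sound (hall i hi) hj (k1_pos hi) (k2_pos hi) (bet_pos hj).le h0 h1
    (c := z.1) (d := z.2) (by rw [hp]) (by linarith) (by linarith) b3 (by linarith)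

lemma invariant (hall : ∀ i ∈ edges, chkEdge edges i = true) {z : ℝ × ℝ} (hz : z ∈ K) :
    F z ∈ K := by
  refine ⟨Real.sqrt_nonneg _, ?_⟩
  intro j hj
  have hM := Mr_pos
  have hbj : (0 : ℝ) < (bet j : ℝ) := by exact_mod_cast bet_pos hj
  -- maximise the linear form over K
  set g : ℝ × ℝ → ℝ := fun w => (alf j : ℝ) * (Mr * F1 w.1 w.2) + bet j * (Mr * F2 w.1 w.2)
    with hg
  have hgc : ContinuousOn g K := by
    have h1 := (continuous_fst.comp_continuousOn continuousOn_F).mono K_sub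
    have h2 := (continuous_snd.comp_continuousOn continuousOn_F).mono K_sub
    have h1' : ContinuousOn (fun w : ℝ × ℝ => F1 w.1 w.2) K := h1
    have h2' : ContinuousOn (fun w : ℝ × ℝ => F2 w.1 w.2) K := h2
    rw [hg]
    fun_prop
  obtain ⟨w, hw, hmax⟩ := isCompact_K.exists_isMaxOn ⟨z, hz⟩ hgc
  have hwg : g w ≤ gam j := by
    by_cases hex : ∃ i ∈ edges, con i w = 0
    · obtain ⟨i, hi, hi0⟩ := hex
      exact edge_ok hall hi hj hw hi0
    · exfalso
      push Not at hex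
      have hpos : ∀ i ∈ edges, 0 < con i w := fun i hi =>
        lt_of_le_of_ne (hw.2 i hi) (Ne.symm (hex i hi))
      obtain ⟨b1, b2, b3, b4⟩ := K_bounds hw
      by_cases ha : 0 ≤ alf j
      · have hm := move (e := ((0 : ℝ), (1 : ℝ))) hpos
        have hsmall : ∀ᶠ s in nhdsWithin (0 : ℝ) (Set.Ioi 0), s < 1 / 10 := by
          apply nhdsWithin_le_nhds
          exact gt_mem_nhds (by norm_num)
        have hp : ∀ᶠ s in nhdsWithin (0 : ℝ) (Set.Ioi 0), 0 < s := self_mem_nhdsWithin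
        obtain ⟨s, hs1, hs2, hs3⟩ := (hm.and (hsmall.and hp)).exists
        have hK : w + s • ((0 : ℝ), (1 : ℝ)) ∈ K := by
          refine ⟨?_, fun i hi => (hs1 i hi).le⟩
          simp only [Prod.snd_add, Prod.smul_snd, smul_eq_mul, mul_one]
          linarith
        have hle := hmax hK
        simp only [hg, Set.mem_setOf_eq, Prod.fst_add, Prod.snd_add, Prod.smul_fst,
          Prod.smul_snd, smul_eq_mul, mul_zero, mul_one, add_zero] at hle
        have m1 := F1_le_of_d (c := w.1) (d := w.2) (d' := w.2 + s) (by linarith) (by linarith)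
          b3 (by linarith)
        have m2 := F2_lt_of_d (c := w.1) (d := w.2) (d' := w.2 + s) (by linarith) (by linarith)
          b3 (by linarith) (by linarith)
        have ha' : (0 : ℝ) ≤ (alf j : ℝ) := by exact_mod_cast ha
        have e1 : (alf j : ℝ) * (Mr * F1 w.1 w.2) ≤ alf j * (Mr * F1 w.1 (w.2 + s)) := by gcongr
        have e2 : (bet j : ℝ) * (Mr * F2 w.1 w.2) < bet j * (Mr * F2 w.1 (w.2 + s)) := by gcongr
        linarith
      · push Not at ha
        have hm := move (e := ((-1 : ℝ), (0 : ℝ))) hpos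
        have hsmall : ∀ᶠ s in nhdsWithin (0 : ℝ) (Set.Ioi 0), s < 1 / 10 := by
          apply nhdsWithin_le_nhds
          exact gt_mem_nhds (by norm_num)
        have hp : ∀ᶠ s in nhdsWithin (0 : ℝ) (Set.Ioi 0), 0 < s := self_mem_nhdsWithin
        obtain ⟨s, hs1, hs2, hs3⟩ := (hm.and (hsmall.and hp)).exists
        have hK : w + s • ((-1 : ℝ), (0 : ℝ)) ∈ K := by
          refine ⟨?_, fun i hi => (hs1 i hi).le⟩
          simp only [Prod.snd_add, Prod.smul_snd, smul_eq_mul, mul_zero, add_zero]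
          linarith
        have hle := hmax hK
        simp only [hg, Set.mem_setOf_eq, Prod.fst_add, Prod.snd_add, Prod.smul_fst,
          Prod.smul_snd, smul_eq_mul, mul_zero, mul_one, add_zero] at hle
        have m1 := F1_lt_of_c (c := w.1) (c' := w.1 + s * -1) (d := w.2) (by linarith)
          (by linarith) (by linarith) b3 (by linarith)
        have m2 := F2_le_of_c (c := w.1) (c' := w.1 + s * -1) (d := w.2) (by linarith)
          (by linarith) (by linarith) b3 (by linarith)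
        have ha' : 0 < -(alf j : ℝ) := by
          have : (alf j : ℝ) < 0 := by exact_mod_cast ha
          linarith
        have e1 : -(alf j : ℝ) * (Mr * F1 (w.1 + s * -1) w.2) <
            -(alf j : ℝ) * (Mr * F1 w.1 w.2) := by gcongr
        have e2 : (bet j : ℝ) * (Mr * F2 w.1 w.2) ≤ bet j * (Mr * F2 (w.1 + s * -1) w.2) := by
          gcongr
        linarith
  have hz' : g z ≤ g w := hmax hz
  have : g z ≤ gam j := hz'.trans hwg
  simp only [hg] at this
  simp only [con, F]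
  linarith

end

end Pool.Agent.T9h70.Corr
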